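import Pool.Agent.Lib.MP_845d9b_co.Cnt.Restrict
import Pool.Agent.Lib.MP_845d9b_co.Abs.AsmHalf

/-!
# Double counting (helper44)

If for at least half of the functions `h : J' × tuples → Fin K` there is a solution of the half problem
with `h = 0` at all but `b` of the blocks of `J'`, then there are at least
`K ^ (|J'| - b) / 2 ^ (|J'| + 1)` solutions.
-/

set_option autoImplicit false

namespace Pool.Agent.DNA

open Finset

/-- the values of `U` at the times of the half problem -/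
def vec (n : ℕ) (U : ℕ → ZMod n) : Fin n → ZMod n :=
  fun k => if (k : ℕ) ∈ Icc (T0 n) (T1 n) then U k else 0

open Classical in
/-- the solutions of the half problem -/
noncomputable def HS (n : ℕ) [NeZero n] : Finset (Fin n → ZMod n) :=
  univ.filter fun g => ∃ U, HalfSol n U ∧ g = vec n U

theorem mem_HS {n : ℕ} [NeZero n] {g : Fin n → ZMod n} :
    g ∈ HS n ↔ ∃ U, HalfSol n U ∧ g = vec n U := by
  unfold HS; simp

/-- the tuple of values at the free times of block `j` -/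
def tup (n Q : ℕ) [NeZero n] (g : Fin n → ZMod n) (j : ℕ) : Fin (Q - 1) → ZMod n :=
  fun i => g (Fin.ofNat n (j * Q + 1 + i))

theorem tup_vec {n Q : ℕ} [NeZero n] (hQ : 1 ≤ Q) {j : ℕ} (hj : j ∈ Blocks n Q)
    (U U' : ℕ → ZMod n) (m : Fin (Q - 1) → ZMod n)
    (h : ∀ k ∈ Ioo (j * Q) ((j + 1) * Q), U' k = ext n Q U j m k) :
    tup n Q (vec n U') j = m := by
  funext i
  have hi := i.2
  have e1 : (j + 1) * Q = j * Q + Q := by ring
  have hk : j * Q + 1 + (i : ℕ) ∈ Ioo (j * Q) ((j + 1) * Q) := by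
    rw [mem_Ioo, e1]; omega
  have h1 := Asm.block_mem_Icc hQ hj (mem_Ioo.mp hk).1.le (mem_Ioo.mp hk).2.le
  have h2 : j * Q + 1 + (i : ℕ) < n := by
    have h3 := (mem_Icc.mp h1).2
    have h4 : 0 < n := Nat.pos_of_ne_zero (NeZero.ne n)
    unfold T1 at h3
    omega
  have h5 : ((Fin.ofNat n (j * Q + 1 + i) : Fin n) : ℕ) = j * Q + 1 + i := by
    rw [Fin.val_ofNat]
    exact Nat.mod_eq_of_lt h2
  unfold tup vec
  rw [h5, if_pos h1, h _ hk]
  unfold ext
  rw [dif_pos]
  · congr 1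
    apply Fin.ext
    show j * Q + 1 + (i : ℕ) - (j * Q + 1) = i
    omega
  · constructor
    · omega
    · show j * Q + 1 + (i : ℕ) - (j * Q + 1) < Q - 1
      omega

open Classical in
theorem count_core {n Q K b : ℕ} [NeZero n] [NeZero K] (J' : Finset ℕ)
    (Gd : Finset (J' × (Fin (Q - 1) → ZMod n) → Fin K))
    (h1 : (K : ℝ) ^ Fintype.card (J' × (Fin (Q - 1) → ZMod n)) ≤ 2 * (Gd.card : ℝ))
    (h2 : ∀ h ∈ Gd, ∃ J'' ⊆ J', J''.card ≤ b ∧ ∃ g ∈ HS n,
      ∀ j : J', (j : ℕ) ∉ J'' → h (j, tup n Q g j) = 0) :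
    (K : ℝ) ^ (J'.card - b) ≤ 2 ^ (J'.card + 1) * ((HS n).card : ℝ) := by
  set N := Fintype.card (J' × (Fin (Q - 1) → ZMod n)) with hN
  set T : (Fin n → ZMod n) → Finset ℕ → Finset (J' × (Fin (Q - 1) → ZMod n)) := fun g J'' =>
    (univ.filter fun j : J' => (j : ℕ) ∉ J'').image fun j => (j, tup n Q g j) with hT
  set Ps := J'.powerset.filter (fun J'' => J''.card ≤ b) with hPs
  have hTc : ∀ g, ∀ J'' ∈ Ps, J'.card - b ≤ (T g J'').card := by
    intro g J'' hJ
    rw [hPs, mem_filter, mem_powerset] at hJ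
    have e1 : (T g J'').card = (univ.filter fun j : J' => (j : ℕ) ∉ J'').card := by
      rw [hT]
      apply card_image_of_injective
      intro a b hab
      exact congrArg Prod.fst hab
    have e2 : (univ.filter fun j : J' => (j : ℕ) ∉ J'').card = (J' \ J'').card := by
      refine card_bij (fun j _ => (j : ℕ)) ?_ ?_ ?_
      · intro j hj
        rw [mem_filter] at hj
        rw [mem_sdiff]
        exact ⟨j.2, hj.2⟩
      · intro a _ b _ hab
        exact Subtype.ext hab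
      · intro j hj
        rw [mem_sdiff] at hj
        exact ⟨⟨j, hj.1⟩, mem_filter.mpr ⟨mem_univ _, hj.2⟩, rfl⟩
    rw [e1, e2, card_sdiff_of_subset hJ.1]
    omega
  have hsub : Gd ⊆ (HS n).biUnion fun g => Ps.biUnion fun J'' =>
      univ.filter fun h : J' × (Fin (Q - 1) → ZMod n) → Fin K => ∀ p ∈ T g J'', h p = 0 := by
    intro h hh
    obtain ⟨J'', hJ1, hJ2, g, hg, hg2⟩ := h2 h hh
    rw [mem_biUnion]
    refine ⟨g, hg, ?_⟩
    rw [mem_biUnion]
    refine ⟨J'', mem_filter.mpr ⟨mem_powerset.mpr hJ1, hJ2⟩, ?_⟩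
    rw [mem_filter]
    refine ⟨mem_univ _, ?_⟩
    intro p hp
    rw [hT] at hp
    rw [mem_image] at hp
    obtain ⟨j, hj, rfl⟩ := hp
    exact hg2 j (mem_filter.mp hj).2
  have hK : 1 ≤ K := Nat.one_le_iff_ne_zero.mpr (NeZero.ne K)
  have hone : ∀ g, ∀ J'' ∈ Ps, (univ.filter fun h : J' × (Fin (Q - 1) → ZMod n) → Fin K =>
      ∀ p ∈ T g J'', h p = 0).card * K ^ (J'.card - b) ≤ K ^ N := by
    intro g J'' hJ
    have e1 := Nibble.Restr.card_zero (K := K) (T g J'')
    have e2 : K ^ (J'.card - b) ≤ K ^ (T g J'').card := Nat.pow_le_pow_right hK (hTc g J'' hJ)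
    calc _ ≤ (univ.filter fun h : J' × (Fin (Q - 1) → ZMod n) → Fin K =>
        ∀ p ∈ T g J'', h p = 0).card * K ^ (T g J'').card := Nat.mul_le_mul_left _ e2
      _ = K ^ N := e1
  have hcount : Gd.card * K ^ (J'.card - b) ≤ (HS n).card * (2 ^ J'.card * K ^ N) := by
    calc Gd.card * K ^ (J'.card - b)
        ≤ (∑ g ∈ HS n, ∑ J'' ∈ Ps, (univ.filter fun h : J' × (Fin (Q - 1) → ZMod n) → Fin K =>
            ∀ p ∈ T g J'', h p = 0).card) * K ^ (J'.card - b) := by
          refine Nat.mul_le_mul_right _ ((card_le_card hsub).trans ?_)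
          refine card_biUnion_le.trans ?_
          exact sum_le_sum fun g _ => card_biUnion_le
      _ = ∑ g ∈ HS n, ∑ J'' ∈ Ps, (univ.filter fun h : J' × (Fin (Q - 1) → ZMod n) → Fin K =>
            ∀ p ∈ T g J'', h p = 0).card * K ^ (J'.card - b) := by
          rw [sum_mul]
          exact sum_congr rfl fun g _ => by rw [sum_mul]
      _ ≤ ∑ _g ∈ HS n, ∑ _J'' ∈ Ps, K ^ N :=
          sum_le_sum fun g _ => sum_le_sum fun J'' hJ => hone g J'' hJ
      _ = (HS n).card * (Ps.card * K ^ N) := by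
          rw [sum_const, smul_eq_mul, sum_const, smul_eq_mul]
      _ ≤ (HS n).card * (2 ^ J'.card * K ^ N) := by
          refine Nat.mul_le_mul_left _ (Nat.mul_le_mul_right _ ?_)
          rw [← card_powerset]
          exact card_le_card (filter_subset _ _)
  have hKN : (0 : ℝ) < (K : ℝ) ^ N := by
    have : (0 : ℝ) < (K : ℝ) := by exact_mod_cast hK
    positivity
  have hc' : (Gd.card : ℝ) * (K : ℝ) ^ (J'.card - b) ≤
      ((HS n).card : ℝ) * (2 ^ J'.card * (K : ℝ) ^ N) := by exact_mod_cast hcount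
  have hKb : (0 : ℝ) ≤ (K : ℝ) ^ (J'.card - b) := by positivity
  have h3 : (K : ℝ) ^ N * (K : ℝ) ^ (J'.card - b) ≤
      (K : ℝ) ^ N * (2 ^ (J'.card + 1) * ((HS n).card : ℝ)) := by
    calc (K : ℝ) ^ N * (K : ℝ) ^ (J'.card - b)
        ≤ 2 * (Gd.card : ℝ) * (K : ℝ) ^ (J'.card - b) := mul_le_mul_of_nonneg_right h1 hKb
      _ = 2 * ((Gd.card : ℝ) * (K : ℝ) ^ (J'.card - b)) := by ring
      _ ≤ 2 * (((HS n).card : ℝ) * (2 ^ J'.card * (K : ℝ) ^ N)) :=
          mul_le_mul_of_nonneg_left hc' (by norm_num)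
      _ = _ := by rw [pow_succ]; ring
  exact le_of_mul_le_mul_left h3 hKN

end Pool.Agent.DNA
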