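import Pool.Agent.DNeo.Basic

/-!
# Commutative D-neofields and their isomorphisms
-/

set_option autoImplicit false

namespace Pool.Agent.DNeo

/-- A commutative D-neofield of order `r`: a neofield with commutative addition that has property D
with respect to some generator of its (cyclic) multiplicative group. -/
structure CommDNeofield (r : ℕ) where
  carrier : Type
  gz : GroupWithZero carrier
  ad : Add carrier
  card : Nat.card carrier = r
  neo : IsNeofield carrier
  comm : ∀ a b : carrier, a + b = b + a
  propD : ∃ x : carrier, IsGenerator x ∧ PropertyD x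

attribute [instance] CommDNeofield.gz CommDNeofield.ad

/-- Isomorphism of neofields: a bijection that preserves both operations. -/
def Isomorphic {r : ℕ} (J K : CommDNeofield r) : Prop :=
  ∃ e : J.carrier ≃ K.carrier, (∀ a b, e (a * b) = e a * e b) ∧ ∀ a b, e (a + b) = e a + e b

theorem Isomorphic.refl {r : ℕ} (J : CommDNeofield r) : Isomorphic J J :=
  ⟨Equiv.refl _, fun _ _ => rfl, fun _ _ => rfl⟩

theorem Isomorphic.symm {r : ℕ} {J K : CommDNeofield r} (h : Isomorphic J K) : Isomorphic K J := by
  obtain ⟨e, h1, h2⟩ := h
  refine ⟨e.symm, fun a b => ?_, fun a b => ?_⟩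
  · apply e.injective
    rw [h1, e.apply_symm_apply, e.apply_symm_apply, e.apply_symm_apply]
  · apply e.injective
    rw [h2, e.apply_symm_apply, e.apply_symm_apply, e.apply_symm_apply]

theorem Isomorphic.trans {r : ℕ} {J K L : CommDNeofield r} (h : Isomorphic J K)
    (h' : Isomorphic K L) : Isomorphic J L := by
  obtain ⟨e, h1, h2⟩ := h
  obtain ⟨f, h3, h4⟩ := h'
  refine ⟨e.trans f, fun a b => ?_, fun a b => ?_⟩
  · simp only [Equiv.trans_apply]
    rw [h1, h3]
  · simp only [Equiv.trans_apply]
    rw [h2, h4]

/-- Isomorphism is an equivalence relation. -/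
def isoSetoid (r : ℕ) : Setoid (CommDNeofield r) where
  r := Isomorphic
  iseqv := ⟨Isomorphic.refl, Isomorphic.symm, Isomorphic.trans⟩

/-- The number of isomorphism classes of commutative D-neofields of order `r`. -/
noncomputable def numClasses (r : ℕ) : ℕ := Nat.card (Quotient (isoSetoid r))

end Pool.Agent.DNeo
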