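import Pool.Agent.DNeo.Basic

/-!
# Neofields from presentation functions, with the structure exposed (helper44)

Adapted from `DNeo/Basic.lean` (helper39).
-/

set_option autoImplicit false

namespace Pool.Agent.DNeo

open WithZero

/-- the set of the neofield: `0` and the powers of the generator `exp 1` -/
abbrev WZ (n : ℕ) : Type := WithZero (Multiplicative (ZMod n))

/-- properties of a presentation function `φ` (`1 + x ^ t = x ^ φ t` for `t ≠ s0`, `1 + x ^ s0 = 0`) -/
structure Pres (n : ℕ) (s0 : ZMod n) (φ : ZMod n → ZMod n) : Prop where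
  h0 : ∀ t, t ≠ s0 → φ t ≠ 0
  hi : ∀ t u, t ≠ s0 → u ≠ s0 → φ t = φ u → t = u
  k0 : ∀ t, t ≠ s0 → φ t ≠ t
  ki : ∀ t u, t ≠ s0 → u ≠ s0 → φ t - t = φ u - u → t = u
  hD : ∀ t u, t ≠ s0 → t ≠ s0 + 1 → u ≠ s0 → u ≠ s0 + 1 →
      φ t - φ (t - 1) = φ u - φ (u - 1) → t = u

variable {n : ℕ} [NeZero n]

/-- the addition as an instance -/
noncomputable abbrev addI (s0 : ZMod n) (φ : ZMod n → ZMod n) : Add (WZ n) := ⟨addOf s0 φ⟩

theorem card_WZ : Nat.card (WZ n) = n + 1 := by
  have : Nat.card (WZ n) = Nat.card (Option (ZMod n)) := rfl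
  rw [this, Finite.card_option, Nat.card_zmod]

omit [NeZero n] in
theorem exp_one_zpow (t : ℤ) : (exp (1 : ZMod n)) ^ t = exp (t : ZMod n) := by
  rw [← exp_zsmul]; congr 1; simp

theorem isGenerator_exp : IsGenerator (exp (1 : ZMod n) : WZ n) := by
  refine ⟨exp_ne_zero, fun y hy => ⟨((log y).val : ℤ), ?_⟩⟩
  rw [exp_one_zpow]
  have : (((log y).val : ℤ) : ZMod n) = log y := by
    rw [Int.cast_natCast, ZMod.natCast_zmod_val]
  rw [this, exp_log hy]

theorem isNeofield_of_pres {s0 : ZMod n} {φ : ZMod n → ZMod n} (hP : Pres n s0 φ) :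
    @IsNeofield (WZ n) _ (addI s0 φ) := by
  classical
  let addI : Add (WZ n) := ⟨addOf s0 φ⟩
  have : Finite (WZ n) := inferInstanceAs (Finite (Option (ZMod n)))
  have hadd : ∀ a b : WZ n, a + b = addOf s0 φ a b := fun a b => rfl
  have hNinj := Nmap_injective hP.h0 hP.hi
  have hNbij : Function.Bijective (Nmap s0 φ) := Finite.injective_iff_bijective.mp hNinj
  have hRinj := Rmap_injective hP.k0 hP.ki
  have hRbij : Function.Bijective (fun w => addOf s0 φ w 1) :=
    Finite.injective_iff_bijective.mp hRinj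
  have hzadd : ∀ a : WZ n, 0 + a = a := by
    intro a; rw [hadd, addOf, if_pos rfl]
  have haddz : ∀ a : WZ n, a + 0 = a := by
    intro a
    rw [hadd, addOf]
    split_ifs with h
    · rw [h]
    · rw [mul_zero, Nmap_zero, mul_one]
  have hld : ∀ a b c : WZ n, a * (b + c) = a * b + a * c := by
    intro a b c
    rcases eq_or_ne a 0 with ha | ha
    · subst ha; rw [zero_mul, zero_mul, zero_mul, hzadd]
    · rcases eq_or_ne b 0 with hb | hb
      · subst hb; rw [mul_zero, hzadd, hzadd]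
      · rw [hadd, hadd, addOf, addOf, if_neg hb, if_neg (mul_ne_zero ha hb)]
        have : (a * b)⁻¹ * (a * c) = b⁻¹ * c := by
          rw [mul_inv]
          field_simp
        rw [this, mul_assoc]
  refine ⟨hzadd, haddz, ?_, ?_, hld, ?_⟩
  · intro a b
    rcases eq_or_ne a 0 with ha | ha
    · subst ha
      exact ⟨b, hzadd b, fun y hy => by simpa [hzadd] using hy⟩
    · obtain ⟨z, hz⟩ := hNbij.2 (a⁻¹ * b)
      refine ⟨a * z, ?_, ?_⟩
      · simp only [hadd, addOf, if_neg ha]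
        rw [inv_mul_cancel_left₀ ha, hz, mul_inv_cancel_left₀ ha]
      · intro y hy
        simp only [hadd, addOf, if_neg ha] at hy
        have : Nmap s0 φ (a⁻¹ * y) = Nmap s0 φ z := by
          rw [hz, ← hy, inv_mul_cancel_left₀ ha]
        rw [← hNinj this, mul_inv_cancel_left₀ ha]
  · intro a b
    rcases eq_or_ne a 0 with ha | ha
    · subst ha
      exact ⟨b, haddz b, fun y hy => by simpa [haddz] using hy⟩
    · have key : ∀ y, y + a = a * (addOf s0 φ (a⁻¹ * y) 1) := by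
        intro y
        have h1 := hld a (a⁻¹ * y) 1
        rw [mul_inv_cancel_left₀ ha, mul_one] at h1
        rw [← h1, hadd]
      obtain ⟨w, hw⟩ := hRbij.2 (a⁻¹ * b)
      simp only at hw
      refine ⟨a * w, ?_, ?_⟩
      · simp only [key]
        rw [inv_mul_cancel_left₀ ha, hw, mul_inv_cancel_left₀ ha]
      · intro y hy
        simp only [key] at hy
        have : addOf s0 φ (a⁻¹ * y) 1 = addOf s0 φ w 1 := by
          rw [hw, ← hy, inv_mul_cancel_left₀ ha]
        have h2 := hRinj this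
        rw [← h2, mul_inv_cancel_left₀ ha]
  · intro a b c
    rw [mul_comm, hld, mul_comm a b, mul_comm a c]

theorem propertyD_of_pres {s0 : ZMod n} {φ : ZMod n → ZMod n} (hP : Pres n s0 φ) :
    @PropertyD (WZ n) _ (addI s0 φ) (exp (1 : ZMod n)) := by
  classical
  let addI : Add (WZ n) := ⟨addOf s0 φ⟩
  have hadd : ∀ a b : WZ n, a + b = addOf s0 φ a b := fun a b => rfl
  have hexp1 : ∀ t : ZMod n, (1 : WZ n) + exp t = Nmap s0 φ (exp t) := by
    intro t
    rw [hadd, addOf, if_neg one_ne_zero, inv_one, one_mul, one_mul]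
  refine ⟨(s0.val : ℤ), ?_, ?_⟩
  · rw [exp_one_zpow, hexp1, Int.cast_natCast, ZMod.natCast_zmod_val, Nmap_exp_self]
  · intro t u ht1 ht2 hu1 hu2 heq
    have hm : ((Nat.card (WZ n) : ℤ) - 1) = (n : ℤ) := by
      rw [card_WZ]; push_cast; ring
    rw [hm] at ht1 ht2 hu1 hu2 ⊢
    have conv : ∀ a b : ℤ, (a ≡ b [ZMOD n]) ↔ ((a : ZMod n) = (b : ZMod n)) := fun a b =>
      (ZMod.intCast_eq_intCast_iff a b n).symm
    have hs : (((s0.val : ℤ)) : ZMod n) = s0 := by
      rw [Int.cast_natCast, ZMod.natCast_zmod_val]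
    rw [conv] at ht1 ht2 hu1 hu2 ⊢
    rw [hs] at ht1 hu1
    rw [Int.cast_add, hs, Int.cast_one] at ht2 hu2
    have ht3 : ((t : ZMod n) - 1) ≠ s0 := fun h => ht2 (by rw [← h]; ring)
    have hu3 : ((u : ZMod n) - 1) ≠ s0 := fun h => hu2 (by rw [← h]; ring)
    rw [exp_one_zpow, exp_one_zpow, exp_one_zpow, exp_one_zpow, hexp1, hexp1, hexp1, hexp1] at heq
    rw [Int.cast_sub, Int.cast_sub, Int.cast_one, Nmap_exp_of_ne ht1, Nmap_exp_of_ne hu1,
      Nmap_exp_of_ne ht3, Nmap_exp_of_ne hu3, ← exp_sub, ← exp_sub, exp_inj] at heq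
    exact hP.hD _ _ ht1 ht2 hu1 hu2 heq

omit [NeZero n] in
/-- commutative if `φ t = t + φ (-t)` -/
theorem addOf_comm {s0 : ZMod n} {φ : ZMod n → ZMod n} (hs : -s0 = s0)
    (hφ : ∀ t, t ≠ s0 → φ t = t + φ (-t)) (a b : WZ n) : addOf s0 φ a b = addOf s0 φ b a := by
  rcases eq_or_ne a 0 with ha | ha
  · rcases eq_or_ne b 0 with hb | hb
    · rw [ha, hb]
    · rw [ha]
      unfold addOf
      rw [if_pos rfl, if_neg hb, mul_zero, Nmap_zero, mul_one]
  · rcases eq_or_ne b 0 with hb | hb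
    · rw [hb]
      unfold addOf
      rw [if_pos rfl, if_neg ha, mul_zero, Nmap_zero, mul_one]
    · obtain ⟨α, rfl⟩ : ∃ α, a = exp α := ⟨log a, (exp_log ha).symm⟩
      obtain ⟨β, rfl⟩ : ∃ β, b = exp β := ⟨log b, (exp_log hb).symm⟩
      unfold addOf
      rw [if_neg ha, if_neg hb, ← exp_neg, ← exp_neg, ← exp_add, ← exp_add]
      by_cases h : -α + β = s0
      · have h2 : -β + α = s0 := by rw [← hs, ← h]; ring
        rw [h, h2, Nmap_exp_self, mul_zero, mul_zero]
      · have h2 : -β + α ≠ s0 := fun h3 => h (by rw [← hs, ← h3]; ring)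
        rw [Nmap_exp_of_ne h, Nmap_exp_of_ne h2, ← exp_add, ← exp_add, exp_inj, hφ _ h]
        have h3 : -(-α + β) = -β + α := by ring
        rw [h3]; ring

end Pool.Agent.DNeo
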