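import Pool.Agent.Lib.MP_845d9b_co.Abs.Final
import Pool.Agent.Lib.MP_845d9b_co.Cnt.Pres

/-!
# The presentation function of a solution of the half problem (helper44)
-/

set_option autoImplicit false

namespace Pool.Agent.DNA

open Finset FN

variable {n : ℕ}

/-- time of a residue -/
def tk (n : ℕ) (t : ZMod n) : ℕ := if t.val ≤ T1 n then t.val else n - t.val
/-- side of a residue -/
def sd (n : ℕ) (t : ZMod n) : Bool := decide (T1 n < t.val)
/-- the residue without value -/
def s0 (n : ℕ) : ZMod n := if Even n then ((n / 2 : ℕ) : ZMod n) else 0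
/-- presentation function; `a` is the point that is not used -/
def phi (n : ℕ) (U : ℕ → ZMod n) (a : ZMod n) (t : ZMod n) : ZMod n := P U (tk n t) (sd n t) - a

theorem s0_neg (n : ℕ) : -(s0 n) = s0 n := by
  unfold s0
  split_ifs with h
  · obtain ⟨m, hm⟩ := h
    have h1 : n / 2 = m := by omega
    rw [h1]
    have h2 : ((n : ℕ) : ZMod n) = 0 := ZMod.natCast_self n
    have h3 : ((m : ℕ) : ZMod n) + (m : ZMod n) = 0 := by
      rw [← Nat.cast_add, ← hm, h2]
    rw [neg_eq_iff_add_eq_zero]
    exact h3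
  · exact neg_zero

theorem val_ne_of_ne_s0 [NeZero n] {t : ZMod n} (ht : t ≠ s0 n) :
    (Even n → t.val ≠ n / 2) ∧ (¬ Even n → t.val ≠ 0) := by
  constructor
  · intro h h1
    apply ht
    unfold s0
    rw [if_pos h, ← h1, ZMod.natCast_zmod_val]
  · intro h h1
    apply ht
    unfold s0
    rw [if_neg h]
    exact (ZMod.val_eq_zero t).mp h1

/-- the three cases -/
theorem tk_cases [NeZero n] {t : ZMod n} (ht : t ≠ s0 n) :
    (T0 n ≤ tk n t ∧ tk n t ≤ T1 n) ∧
    ((t.val ≤ T1 n ∧ tk n t = t.val ∧ sd n t = false) ∨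
      (T1 n < t.val ∧ 1 ≤ tk n t ∧ tk n t + t.val = n ∧ sd n t = true)) := by
  obtain ⟨h1, h2⟩ := val_ne_of_ne_s0 ht
  have h3 := ZMod.val_lt t
  rcases Nat.even_or_odd n with he | ho
  · have h4 := h1 he
    obtain ⟨m, hm⟩ := he
    unfold tk sd T0 T1
    by_cases h5 : t.val ≤ (n - 1) / 2
    · rw [if_pos h5]
      refine ⟨by omega, Or.inl ⟨h5, rfl, ?_⟩⟩
      rw [decide_eq_false_iff_not]; omega
    · rw [if_neg h5]
      refine ⟨by omega, Or.inr ⟨by omega, by omega, by omega, ?_⟩⟩
      rw [decide_eq_true_eq]; omega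
  · have h4 := h2 (by rwa [Nat.not_even_iff_odd])
    obtain ⟨m, hm⟩ := ho
    unfold tk sd T0 T1
    by_cases h5 : t.val ≤ (n - 1) / 2
    · rw [if_pos h5]
      refine ⟨by omega, Or.inl ⟨h5, rfl, ?_⟩⟩
      rw [decide_eq_false_iff_not]; omega
    · rw [if_neg h5]
      refine ⟨by omega, Or.inr ⟨by omega, by omega, by omega, ?_⟩⟩
      rw [decide_eq_true_eq]; omega

theorem eq_of_tk [NeZero n] {t u : ZMod n} (ht : t ≠ s0 n) (hu : u ≠ s0 n)
    (h1 : tk n t = tk n u) (h2 : sd n t = sd n u ∨ tk n t = 0) : t = u := by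
  apply ZMod.val_injective
  have a := ZMod.val_lt t
  have b := ZMod.val_lt u
  rcases (tk_cases ht).2 with ⟨c1, c2, c3⟩ | ⟨c1, c2, c3, c4⟩ <;>
    rcases (tk_cases hu).2 with ⟨d1, d2, d3⟩ | ⟨d1, d2, d3, d4⟩
  · omega
  · rcases h2 with h2 | h2
    · rw [c3, d4] at h2
      exact absurd h2 (by simp)
    · omega
  · rcases h2 with h2 | h2
    · rw [c4, d3] at h2
      exact absurd h2 (by simp)
    · omega
  · omega

theorem neg_ne_s0 {t : ZMod n} (ht : t ≠ s0 n) : -t ≠ s0 n := fun h => ht (by
  rw [← s0_neg, ← h, neg_neg])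

/-- symmetry -/
theorem phi_neg [NeZero n] (U : ℕ → ZMod n) (a : ZMod n) {t : ZMod n} (ht : t ≠ s0 n) :
    phi n U a t = t + phi n U a (-t) := by
  by_cases h0 : t = 0
  · rw [h0, neg_zero, zero_add]
  · have hv : (-t).val = n - t.val := by
      rw [ZMod.neg_val, if_neg h0]
    have hpos : 0 < t.val := by
      rw [ZMod.val_pos]; exact h0
    have h3 := ZMod.val_lt t
    have hcast : ((t.val : ℕ) : ZMod n) = t := ZMod.natCast_zmod_val t
    have hcast2 : ((n - t.val : ℕ) : ZMod n) = -t := by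
      rw [Nat.cast_sub h3.le, ZMod.natCast_self, hcast, zero_sub]
    rcases (tk_cases ht).2 with ⟨c1, c2, c3⟩ | ⟨c1, c2, c3, c4⟩ <;>
      rcases (tk_cases (neg_ne_s0 ht)).2 with ⟨d1, d2, d3⟩ | ⟨d1, d2, d3, d4⟩
    · exfalso
      rw [hv] at d1
      have : T1 n = (n - 1) / 2 := rfl
      omega
    · have e1 : tk n (-t) = t.val := by omega
      unfold phi P
      rw [c2, c3, e1, d4, hcast]
      simp only [if_true, if_false, Bool.false_eq_true]
      ring
    · have e1 : tk n (-t) = n - t.val := by rw [d2, hv]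
      have e2 : tk n t = n - t.val := by omega
      unfold phi P
      rw [e1, e2, c4, d3, hcast2]
      simp only [if_true, if_false, Bool.false_eq_true]
      ring
    · exfalso
      have e3 := (tk_cases ht).1
      have e4 := (tk_cases (neg_ne_s0 ht)).1
      have : T1 n = (n - 1) / 2 := rfl
      omega

/-- a point that is not used -/
theorem exists_missing [NeZero n] (U : ℕ → ZMod n) :
    ∃ a : ZMod n, ∀ t, t ≠ s0 n → P U (tk n t) (sd n t) ≠ a := by
  by_contra hcon
  push Not at hcon
  have hsub : (univ : Finset (ZMod n)) ⊆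
      (univ.erase (s0 n)).image fun t => P U (tk n t) (sd n t) := by
    intro a _
    obtain ⟨t, ht, hta⟩ := hcon a
    rw [mem_image]
    exact ⟨t, mem_erase.mpr ⟨ht, mem_univ _⟩, hta⟩
  have hc := (card_le_card hsub).trans card_image_le
  rw [card_erase_of_mem (mem_univ _), card_univ, ZMod.card] at hc
  have := Nat.pos_of_ne_zero (NeZero.ne n)
  omega

/-- a difference of values of `phi` is one of the differences of the half solution -/
theorem phi_diff [NeZero n] (hn : 6 ≤ n) (U : ℕ → ZMod n) (a : ZMod n) {t : ZMod n}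
    (h1 : t ≠ s0 n) (h2 : t ≠ s0 n + 1) :
    (∃ (k : ℕ) (s : Bool), (T0 n ≤ k ∧ k < T1 n) ∧ phi n U a t - phi n U a (t - 1) = D U k s ∧
      t = if s then -(k : ZMod n) else (k : ZMod n) + 1) ∨
    (¬ Even n ∧ t.val = T1 n + 1 ∧
      phi n U a t - phi n U a (t - 1) = -((T1 n : ℕ) : ZMod n)) := by
  have hn1 : Fact (1 < n) := ⟨by omega⟩
  have h3 : t - 1 ≠ s0 n := fun h => h2 (by rw [← h]; ring)
  have hvt := ZMod.val_lt t
  have hcast : ((t.val : ℕ) : ZMod n) = t := ZMod.natCast_zmod_val t
  have hT1 : T1 n = (n - 1) / 2 := rfl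
  have hT0 : T0 n = n % 2 := rfl
  obtain ⟨⟨r1, r2⟩, hc⟩ := tk_cases h1
  obtain ⟨⟨r3, r4⟩, hd⟩ := tk_cases h3
  by_cases h0 : t = 0
  · -- t = 0
    have hv1 : (t - 1).val = n - 1 := by
      rw [h0, zero_sub, ZMod.neg_val, if_neg one_ne_zero, ZMod.val_one]
    have hv0 : t.val = 0 := by rw [h0]; exact ZMod.val_zero
    left
    rcases hc with ⟨c1, c2, c3⟩ | ⟨c1, c2, c3, c4⟩
    · rcases hd with ⟨d1, d2, d3⟩ | ⟨d1, d2, d3, d4⟩
      · omega
      · have e1 : tk n (t - 1) = 1 := by omega
        have e2 : tk n t = 0 := by omega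
        refine ⟨0, true, by omega, ?_, ?_⟩
        · unfold phi
          rw [e1, e2, c3, d4]
          simp only [P, D, if_true, if_false, Bool.false_eq_true]
          push_cast
          ring_nf
        · rw [if_pos rfl, h0]; simp
    · omega
  · have hpos : 0 < t.val := by
      rw [ZMod.val_pos]; exact h0
    have hv1 : (t - 1).val = t.val - 1 := by
      have e1 : t - 1 = ((t.val - 1 : ℕ) : ZMod n) := by
        rw [Nat.cast_sub hpos, hcast, Nat.cast_one]
      rw [e1, ZMod.val_natCast, Nat.mod_eq_of_lt (by omega)]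
    rcases hc with ⟨c1, c2, c3⟩ | ⟨c1, c2, c3, c4⟩
    · -- upper side
      left
      rcases hd with ⟨d1, d2, d3⟩ | ⟨d1, d2, d3, d4⟩
      · refine ⟨t.val - 1, false, by omega, ?_, ?_⟩
        · unfold phi
          rw [c2, c3, d2, d3, hv1]
          simp only [P, D, if_false, Bool.false_eq_true]
          rw [show t.val - 1 + 1 = t.val by omega]
          ring
        · rw [if_neg (by simp), Nat.cast_sub hpos, hcast]
          push_cast
          ring
      · omega
    · rcases hd with ⟨d1, d2, d3⟩ | ⟨d1, d2, d3, d4⟩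
      · -- the middle
        right
        have e1 : t.val = T1 n + 1 := by omega
        have e0 : ¬ Even n := by
          intro he
          obtain ⟨m, hm⟩ := he
          omega
        rw [Nat.not_even_iff_odd] at e0
        obtain ⟨m, hm⟩ := e0
        have e2 : tk n t = T1 n := by omega
        have e3 : tk n (t - 1) = T1 n := by omega
        refine ⟨?_, e1, ?_⟩
        · rw [Nat.not_even_iff_odd]; exact ⟨m, hm⟩
        · unfold phi
          rw [e2, e3, c4, d3]
          simp only [P, if_true, if_false, Bool.false_eq_true]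
          ring
      · -- lower side
        left
        have e1 : tk n t + 1 = tk n (t - 1) := by omega
        refine ⟨tk n t, true, by omega, ?_, ?_⟩
        · unfold phi
          rw [← e1, c4, d4]
          simp only [P, D, if_true]
          push_cast
          ring
        · rw [if_pos rfl]
          have e4 : ((tk n t : ℕ) : ZMod n) + t = 0 := by
            rw [← hcast, ← Nat.cast_add]
            have : tk n ((t.val : ℕ) : ZMod n) = tk n t := by rw [hcast]
            rw [this, c3, ZMod.natCast_self]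
          linear_combination e4

theorem phi_pres [NeZero n] (hn : 6 ≤ n) {U : ℕ → ZMod n} (hU : HalfSol n U) {a : ZMod n}
    (ha : ∀ t, t ≠ s0 n → P U (tk n t) (sd n t) ≠ a) :
    DNeo.Pres n (s0 n) (phi n U a) := by
  have hi : ∀ t u, t ≠ s0 n → u ≠ s0 n → phi n U a t = phi n U a u → t = u := by
    intro t u ht hu h
    unfold phi at h
    obtain ⟨e1, e2⟩ := P_inj hU (tk_cases ht).1 (tk_cases hu).1 (sub_left_injective h)
    exact eq_of_tk ht hu e1 e2
  have h0 : ∀ t, t ≠ s0 n → phi n U a t ≠ 0 := by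
    intro t ht h
    exact ha t ht (sub_eq_zero.mp h)
  refine ⟨h0, hi, ?_, ?_, ?_⟩
  · intro t ht h
    have h1 := phi_neg U a ht
    rw [h] at h1
    exact h0 (-t) (neg_ne_s0 ht) (by linear_combination -h1)
  · intro t u ht hu h
    rw [phi_neg U a ht, phi_neg U a hu] at h
    have h1 := hi (-t) (-u) (neg_ne_s0 ht) (neg_ne_s0 hu) (by linear_combination h)
    exact neg_injective h1
  · intro t u ht1 ht2 hu1 hu2 h
    have hmid : ∀ {m : ℕ}, n = 2 * m + 1 → T1 n = m ∧
        -((T1 n : ℕ) : ZMod n) + -((T1 n : ℕ) : ZMod n) = 1 := by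
      intro m hm
      have e1 : T1 n = m := by unfold T1; omega
      refine ⟨e1, ?_⟩
      rw [e1]
      have e2 : ((2 * m + 1 : ℕ) : ZMod n) = 0 := by rw [← hm]; exact ZMod.natCast_self n
      push_cast at e2
      linear_combination -e2
    rcases phi_diff hn U a ht1 ht2 with ⟨k, s, hk, e1, e2⟩ | ⟨o1, v1, e1⟩ <;>
      rcases phi_diff hn U a hu1 hu2 with ⟨k', s', hk', e1', e2'⟩ | ⟨o2, v2, e2⟩
    · rw [e1, e1'] at h
      obtain ⟨a1, a2⟩ := D_inj hU hk hk' h
      rw [e2, e2', a1, a2]
    · exfalso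
      rw [Nat.not_even_iff_odd] at o2
      obtain ⟨m, hm⟩ := o2
      rw [e1, e2] at h
      refine (D_ok hU hk s).2.2 ?_
      rw [h]
      exact (hmid hm).2
    · exfalso
      rw [Nat.not_even_iff_odd] at o1
      obtain ⟨m, hm⟩ := o1
      rw [e1, e1'] at h
      refine (D_ok hU hk' s').2.2 ?_
      rw [← h]
      exact (hmid hm).2
    · apply ZMod.val_injective
      rw [v1, v2]

/-- the values of `U` are determined by `phi` and one value -/
theorem eq_of_phi [NeZero n] (hn : 6 ≤ n) {U U' : ℕ → ZMod n} {a a' : ZMod n}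
    (h : ∀ t, t ≠ s0 n → phi n U a t = phi n U' a' t) (h1 : U 1 = U' 1) {k : ℕ}
    (hk : k ∈ Icc (T0 n) (T1 n)) : U k = U' k := by
  have hT1 : T1 n = (n - 1) / 2 := rfl
  have key : ∀ k ∈ Icc (T0 n) (T1 n), U k - a = U' k - a' := by
    intro k hk
    rw [mem_Icc] at hk
    have hv : ((k : ℕ) : ZMod n).val = k := by
      rw [ZMod.val_natCast, Nat.mod_eq_of_lt (by omega)]
    have hne : ((k : ℕ) : ZMod n) ≠ s0 n := by
      intro he
      unfold s0 at he
      unfold T0 at hk
      split_ifs at he with hev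
      · obtain ⟨m, hm⟩ := hev
        have h2 := congrArg ZMod.val he
        rw [hv, ZMod.val_natCast, Nat.mod_eq_of_lt (by omega)] at h2
        omega
      · have h2 := congrArg ZMod.val he
        rw [hv, ZMod.val_zero] at h2
        rw [Nat.not_even_iff_odd] at hev
        obtain ⟨m, hm⟩ := hev
        omega
    have h2 := h _ hne
    rcases (tk_cases hne).2 with ⟨c1, c2, c3⟩ | ⟨c1, c2, c3, c4⟩
    · unfold phi at h2
      rw [c2, c3, hv] at h2
      simpa [P] using h2
    · omega
  have h2 := key 1 (by rw [mem_Icc]; unfold T0; omega)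
  have h3 := key k hk
  rw [h1] at h2
  have h4 : a = a' := by linear_combination -h2
  rw [h4] at h3
  exact sub_left_injective h3

end Pool.Agent.DNA
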