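import Pool.Agent.Lib.MP_845d9b_co.Cnt.Core
import Pool.Agent.Lib.MP_845d9b_co.Cnt.Phi
import Pool.Agent.Lib.MP_845d9b_co.Cnt.NeoDefs

/-!
# From solutions of the half problem to pairwise non-isomorphic commutative D-neofields (helper44)
-/

set_option autoImplicit false

namespace Pool.Agent.DNA

open Finset FN Pool.Agent.DNeo WithZero

section family

/-- A large family of pairwise unrelated elements, if every element is related to few. -/
theorem exists_family {α : Type*} [DecidableEq α] (X : Finset α) (R : α → α → Prop)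
    (hr : ∀ a ∈ X, R a a) (hs : ∀ a ∈ X, ∀ b ∈ X, R a b → R b a) (B : ℕ)
    (hB : ∀ a ∈ X, ∀ Y ⊆ X, (∀ b ∈ Y, R a b) → Y.card ≤ B) :
    ∃ A ⊆ X, (∀ a ∈ A, ∀ b ∈ A, a ≠ b → ¬ R a b) ∧ X.card ≤ A.card * B := by
  classical
  obtain ⟨Fm, hFm⟩ : ∃ Fm : Finset (Finset α), ∀ A, A ∈ Fm ↔
      A ⊆ X ∧ ∀ a ∈ A, ∀ b ∈ A, a ≠ b → ¬ R a b := by
    let Pd : Finset α → Prop := fun A => ∀ a ∈ A, ∀ b ∈ A, a ≠ b → ¬ R a b
    refine ⟨X.powerset.filter Pd, fun A => ?_⟩
    rw [mem_filter, mem_powerset]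
  have hne : Fm.Nonempty := ⟨∅, (hFm ∅).mpr ⟨empty_subset _, by simp⟩⟩
  obtain ⟨A, hA, hmax⟩ := exists_max_image Fm card hne
  rw [hFm] at hA
  refine ⟨A, hA.1, hA.2, ?_⟩
  have hcov : X ⊆ A.biUnion fun a => X.filter fun b => R a b := by
    intro b hb
    rw [mem_biUnion]
    by_contra hcon
    push Not at hcon
    have h1 : ∀ a ∈ A, ¬ R a b := by
      intro a ha h2
      exact hcon a ha (mem_filter.mpr ⟨hb, h2⟩)
    have h3 : b ∉ A := fun h4 => h1 b h4 (hr b hb)
    have h5 : insert b A ∈ Fm := by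
      rw [hFm]
      refine ⟨insert_subset hb hA.1, ?_⟩
      intro x hx y hy hxy
      rw [mem_insert] at hx hy
      rcases hx with rfl | hx <;> rcases hy with rfl | hy
      · exact absurd rfl hxy
      · intro h6
        exact h1 y hy (hs _ hb _ (hA.1 hy) h6)
      · exact h1 x hx
      · exact hA.2 x hx y hy hxy
    have h6 := hmax _ h5
    rw [card_insert_of_notMem h3] at h6
    omega
  calc X.card ≤ _ := card_le_card hcov
    _ ≤ ∑ a ∈ A, (X.filter fun b => R a b).card := card_biUnion_le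
    _ ≤ ∑ _a ∈ A, B := sum_le_sum fun a ha =>
        hB a (hA.1 ha) _ (filter_subset _ _) fun b hb => (mem_filter.mp hb).2
    _ = A.card * B := by rw [sum_const, smul_eq_mul]

end family

variable {n : ℕ} [NeZero n]

/-- a point that is not used -/
noncomputable def aOf (U : ℕ → ZMod n) : ZMod n := (exists_missing U).choose

theorem aOf_spec (U : ℕ → ZMod n) : ∀ t, t ≠ s0 n → P U (tk n t) (sd n t) ≠ aOf U :=
  (exists_missing U).choose_spec

/-- the neofield of a half solution -/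
noncomputable def neoU (hn : 6 ≤ n) (U : ℕ → ZMod n) (hU : HalfSol n U) :
    CommDNeofield (n + 1) where
  carrier := WZ n
  gz := inferInstance
  ad := addI (s0 n) (phi n U (aOf U))
  card := card_WZ
  neo := isNeofield_of_pres (phi_pres hn hU (aOf_spec U))
  comm := addOf_comm (s0_neg n) fun _ ht => phi_neg U _ ht
  propD := ⟨exp (1 : ZMod n), isGenerator_exp, propertyD_of_pres (phi_pres hn hU (aOf_spec U))⟩

/-- multiplicative bijections are determined by the image of the generator -/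
theorem mul_ext (e1 e2 : WZ n ≃ WZ n) (h1 : ∀ a b, e1 (a * b) = e1 a * e1 b)
    (h2 : ∀ a b, e2 (a * b) = e2 a * e2 b) (h : e1 (exp (1 : ZMod n)) = e2 (exp (1 : ZMod n)))
    (z : WZ n) : e1 z = e2 z := by
  let f1 : WZ n ≃* WZ n := { e1 with map_mul' := h1 }
  let f2 : WZ n ≃* WZ n := { e2 with map_mul' := h2 }
  have e1' : ∀ z, e1 z = f1 z := fun _ => rfl
  have e2' : ∀ z, e2 z = f2 z := fun _ => rfl
  rw [e1', e2']
  rw [e1', e2'] at h
  rcases eq_or_ne z 0 with hz | hz
  · rw [hz, map_zero, map_zero]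
  · have h3 : z = (exp (1 : ZMod n)) ^ (log z).val := by
      have h4 := exp_one_zpow (n := n) ((log z).val : ℤ)
      rw [zpow_natCast, Int.cast_natCast, ZMod.natCast_zmod_val, exp_log hz] at h4
      exact h4.symm
    rw [h3, map_pow, map_pow, h]

omit [NeZero n] in
theorem phi_eq_of_addOf {s : ZMod n} {φ φ' : ZMod n → ZMod n}
    (h : ∀ a b : WZ n, addOf s φ a b = addOf s φ' a b) {t : ZMod n} (ht : t ≠ s) : φ t = φ' t := by
  have h1 := h 1 (exp t)
  unfold addOf at h1
  rw [if_neg one_ne_zero, if_neg one_ne_zero, inv_one, one_mul, one_mul, one_mul,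
    Nmap_exp_of_ne ht, Nmap_exp_of_ne ht, exp_inj] at h1
  exact h1

/-- isomorphisms to two such neofields that agree at the generator -/
theorem iso_unique (hn : 6 ≤ n) {U0 U1 U2 : ℕ → ZMod n} (e1 : WZ n ≃ WZ n) (e2 : WZ n ≃ WZ n)
    (m1 : ∀ a b, e1 (a * b) = e1 a * e1 b) (m2 : ∀ a b, e2 (a * b) = e2 a * e2 b)
    (s1 : ∀ a b, e1 (addOf (s0 n) (phi n U0 (aOf U0)) a b) =
      addOf (s0 n) (phi n U1 (aOf U1)) (e1 a) (e1 b))
    (s2 : ∀ a b, e2 (addOf (s0 n) (phi n U0 (aOf U0)) a b) =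
      addOf (s0 n) (phi n U2 (aOf U2)) (e2 a) (e2 b))
    (he : e1 (exp (1 : ZMod n)) = e2 (exp (1 : ZMod n))) (hU : U1 1 = U2 1) :
    vec n U1 = vec n U2 := by
  have hee := mul_ext e1 e2 m1 m2 he
  have hadd : ∀ a b : WZ n, addOf (s0 n) (phi n U1 (aOf U1)) a b =
      addOf (s0 n) (phi n U2 (aOf U2)) a b := by
    intro a b
    obtain ⟨a', rfl⟩ := e1.surjective a
    obtain ⟨b', rfl⟩ := e1.surjective b
    rw [← s1, hee, s2, ← hee, ← hee]
  funext k
  unfold vec
  split_ifs with hk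
  · exact eq_of_phi hn (fun t ht => phi_eq_of_addOf hadd ht) hU hk
  · rfl

/-- the number of non-isomorphic ones -/
theorem exists_neofields (hn : 6 ≤ n) : ∃ (m : ℕ) (J : Fin m → CommDNeofield (n + 1)),
    (HS n).card ≤ m * n ^ 2 ∧ ∀ i j, i ≠ j → ¬ Isomorphic (J i) (J j) := by
  classical
  have hch : ∀ g : Fin n → ZMod n, ∃ U : ℕ → ZMod n, g ∈ HS n → HalfSol n U ∧ g = vec n U := by
    intro g
    by_cases hg : g ∈ HS n
    · obtain ⟨U, hU⟩ := mem_HS.mp hg
      exact ⟨U, fun _ => hU⟩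
    · exact ⟨fun _ => 0, fun h => absurd h hg⟩
  choose Uo hUo using hch
  let R : (Fin n → ZMod n) → (Fin n → ZMod n) → Prop := fun g g' =>
    ∃ e : WZ n ≃ WZ n, (∀ a b, e (a * b) = e a * e b) ∧
      ∀ a b, e (addOf (s0 n) (phi n (Uo g) (aOf (Uo g))) a b) =
        addOf (s0 n) (phi n (Uo g') (aOf (Uo g'))) (e a) (e b)
  have hone : (1 : ℕ) ∈ Icc (T0 n) (T1 n) := by
    rw [mem_Icc]; unfold T0 T1; omega
  obtain ⟨A, hAX, hA, hc⟩ := exists_family (HS n) R
    (fun g _ => ⟨Equiv.refl _, fun _ _ => rfl, fun _ _ => rfl⟩)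
    (by
      rintro g _ g' _ ⟨e, h1, h2⟩
      refine ⟨e.symm, fun a b => ?_, fun a b => ?_⟩
      · apply e.injective
        rw [h1, e.apply_symm_apply, e.apply_symm_apply, e.apply_symm_apply]
      · apply e.injective
        rw [h2, e.apply_symm_apply, e.apply_symm_apply, e.apply_symm_apply]) (n ^ 2)
    (by
      intro g hg Y hY hYR
      have hch2 : ∀ g' : Fin n → ZMod n, ∃ e : WZ n ≃ WZ n, g' ∈ Y →
          (∀ a b, e (a * b) = e a * e b) ∧
          ∀ a b, e (addOf (s0 n) (phi n (Uo g) (aOf (Uo g))) a b) =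
            addOf (s0 n) (phi n (Uo g') (aOf (Uo g'))) (e a) (e b) := by
        intro g'
        by_cases hg' : g' ∈ Y
        · obtain ⟨e, he⟩ := hYR g' hg'
          exact ⟨e, fun _ => he⟩
        · exact ⟨Equiv.refl _, fun h => absurd h hg'⟩
      choose eo heo using hch2
      have hcard : Y.card ≤ (univ : Finset (ZMod n × ZMod n)).card := by
        refine card_le_card_of_injOn (fun g' => (log (eo g' (exp (1 : ZMod n))), Uo g' 1))
          (fun g' _ => mem_univ _) ?_
        intro g1 hg1 g2 hg2 h12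
        simp only [Prod.mk.injEq] at h12
        obtain ⟨m1, s1⟩ := heo g1 hg1
        obtain ⟨m2, s2⟩ := heo g2 hg2
        obtain ⟨u1, v1⟩ := hUo g1 (hY hg1)
        obtain ⟨u2, v2⟩ := hUo g2 (hY hg2)
        have ne1 : eo g1 (exp (1 : ZMod n)) ≠ 0 := by
          let f1 : WZ n ≃* WZ n := { eo g1 with map_mul' := m1 }
          have : f1 (exp (1 : ZMod n)) ≠ 0 := (map_ne_zero f1).mpr exp_ne_zero
          exact this
        have ne2 : eo g2 (exp (1 : ZMod n)) ≠ 0 := by
          let f2 : WZ n ≃* WZ n := { eo g2 with map_mul' := m2 }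
          have : f2 (exp (1 : ZMod n)) ≠ 0 := (map_ne_zero f2).mpr exp_ne_zero
          exact this
        have he : eo g1 (exp (1 : ZMod n)) = eo g2 (exp (1 : ZMod n)) := by
          rw [← exp_log ne1, ← exp_log ne2, h12.1]
        rw [v1, v2]
        exact iso_unique hn (eo g1) (eo g2) m1 m2 s1 s2 he h12.2
      rw [card_univ, Fintype.card_prod, ZMod.card] at hcard
      rw [sq]
      exact hcard)
  refine ⟨A.card, fun i => neoU hn (Uo (A.equivFin.symm i))
    (hUo _ (hAX (A.equivFin.symm i).2)).1, hc, ?_⟩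
  intro i j hij hiso
  obtain ⟨e, h1, h2⟩ := hiso
  refine hA _ (A.equivFin.symm i).2 _ (A.equivFin.symm j).2 ?_ ⟨e, h1, h2⟩
  intro h
  exact hij (A.equivFin.symm.injective (Subtype.ext h))

end Pool.Agent.DNA
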