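import Pool.Agent.Lib.MP_845d9b_co.Cnt.NeoDefs

/-!
# Upper bound for the number of commutative D-neofields (helper44)
-/

set_option autoImplicit false

namespace Pool.Agent.DNeo

open Finset

section

variable {n : ℕ} [NeZero n] (J K : CommDNeofield (n + 1))

/-- a generator -/
noncomputable def gen : J.carrier := J.propD.choose

omit [NeZero n] in
theorem gen_spec : IsGenerator (gen J) := J.propD.choose_spec.1

omit [NeZero n] in
theorem finite_carrier : Finite J.carrier :=
  Nat.finite_of_card_ne_zero (by rw [J.card]; omega)

theorem gen_pow : (gen J) ^ n = 1 := by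
  have := finite_carrier J
  let u : (J.carrier)ˣ := Units.mk0 (gen J) (gen_spec J).1
  have h1 : Nat.card (J.carrier)ˣ = n := by
    rw [Nat.card_units, J.card]; omega
  have h2 : u ^ Nat.card (J.carrier)ˣ = 1 := pow_card_eq_one'
  rw [h1] at h2
  have h3 := congrArg Units.val h2
  simpa [u] using h3

theorem gen_pow_mod (m : ℕ) : (gen J) ^ (m % n) = (gen J) ^ m := by
  conv_rhs => rw [← Nat.div_add_mod m n, pow_add, pow_mul, gen_pow, one_pow, one_mul]

/-- enumeration of the neofield -/
noncomputable def en : Option (ZMod n) → J.carrier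
  | none => 0
  | some t => (gen J) ^ t.val

theorem en_mul (t u : ZMod n) : en J (some t) * en J (some u) = en J (some (t + u)) := by
  show (gen J) ^ t.val * (gen J) ^ u.val = (gen J) ^ (t + u).val
  rw [← pow_add, ZMod.val_add, gen_pow_mod]

omit [NeZero n] in
theorem en_zero : en J (some 0) = 1 := by
  show (gen J) ^ (0 : ZMod n).val = 1
  rw [ZMod.val_zero, pow_zero]

theorem en_surjective : Function.Surjective (en J) := by
  intro y
  by_cases hy : y = 0
  · exact ⟨none, hy.symm⟩
  · obtain ⟨k, hk⟩ := (gen_spec J).2 y hy
    refine ⟨some (k : ZMod n), ?_⟩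
    show (gen J) ^ ((k : ZMod n)).val = y
    rw [← hk, ← zpow_natCast, ZMod.val_intCast]
    have h1 : (gen J) ^ k = (gen J) ^ ((n : ℤ) * (k / n) + k % n) := by
      rw [Int.mul_ediv_add_emod]
    rw [h1, zpow_add₀ (gen_spec J).1, zpow_mul, zpow_natCast, gen_pow, one_zpow, one_mul]

theorem en_bijective : Function.Bijective (en J) := by
  have := finite_carrier J
  have := Fintype.ofFinite J.carrier
  rw [Fintype.bijective_iff_surjective_and_card]
  refine ⟨en_surjective J, ?_⟩
  rw [Fintype.card_option, ZMod.card, ← Nat.card_eq_fintype_card, J.card]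

/-- enumeration as an equivalence -/
noncomputable def enE : Option (ZMod n) ≃ J.carrier := Equiv.ofBijective _ (en_bijective J)

theorem enE_apply (p : Option (ZMod n)) : enE J p = en J p := rfl

/-- half of the table of `1 + x ^ t` -/
noncomputable def code : Fin (n / 2 + 1) → Option (ZMod n) := fun k =>
  (enE J).symm (1 + en J (some ((k : ℕ) : ZMod n)))

theorem flip (s : ZMod n) :
    (1 : J.carrier) + en J (some s) = en J (some s) * (1 + en J (some (-s))) := by
  rw [J.neo.left_distrib, mul_one, en_mul, add_neg_cancel, en_zero]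
  exact J.comm _ _

variable {J K}

theorem isomorphic_of_code (h : code J = code K) : Isomorphic J K := by
  set e : J.carrier ≃ K.carrier := (enE J).symm.trans (enE K) with he
  have heen : ∀ p, e (en J p) = en K p := by
    intro p
    rw [he, Equiv.trans_apply, ← enE_apply, Equiv.symm_apply_apply, enE_apply]
  have hmul : ∀ a b, e (a * b) = e a * e b := by
    intro a b
    obtain ⟨p, rfl⟩ := en_surjective J a
    obtain ⟨q, rfl⟩ := en_surjective J b
    have h0J : en J none = 0 := rfl
    have h0K : en K none = 0 := rfl
    rcases p with _ | t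
    · rw [h0J, zero_mul, ← h0J, heen, h0K, zero_mul]
    · rcases q with _ | u
      · rw [h0J, mul_zero, ← h0J, heen, heen, h0K, mul_zero]
      · rw [en_mul, heen, heen, heen, en_mul]
  have hhalf : ∀ s : ZMod n, s.val ≤ n / 2 → e (1 + en J (some s)) = 1 + en K (some s) := by
    intro s hs
    have h1 := congrFun h ⟨s.val, by omega⟩
    unfold code at h1
    simp only [ZMod.natCast_zmod_val] at h1
    rw [he, Equiv.trans_apply, h1, Equiv.apply_symm_apply]
  have hall : ∀ s : ZMod n, e (1 + en J (some s)) = 1 + en K (some s) := by
    intro s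
    by_cases hs : s.val ≤ n / 2
    · exact hhalf s hs
    · have h1 : (-s).val ≤ n / 2 := by
        have h2 : s ≠ 0 := by
          intro h3
          rw [h3, ZMod.val_zero] at hs
          omega
        rw [ZMod.neg_val, if_neg h2]
        have := ZMod.val_lt s
        omega
      rw [flip J s, hmul, heen, hhalf _ h1, flip K s]
  refine ⟨e, hmul, ?_⟩
  intro a b
  obtain ⟨p, rfl⟩ := en_surjective J a
  obtain ⟨q, rfl⟩ := en_surjective J b
  have h0J : en J none = 0 := rfl
  have h0K : en K none = 0 := rfl
  rcases p with _ | t
  · rw [h0J, J.neo.zero_add, ← h0J, heen, heen, h0K, K.neo.zero_add]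
  · rcases q with _ | u
    · rw [h0J, J.neo.add_zero, ← h0J, heen, heen, h0K, K.neo.add_zero]
    · have key : ∀ M : CommDNeofield (n + 1), en M (some t) + en M (some u) =
          en M (some t) * (1 + en M (some (u - t))) := by
        intro M
        rw [M.neo.left_distrib, mul_one, en_mul]
        congr 3
        ring
      rw [key J, hmul, hall, heen, heen, key K]

end

/-- any family of pairwise non-isomorphic commutative D-neofields is small -/
theorem upper (n : ℕ) [NeZero n] (m : ℕ) (J : Fin m → CommDNeofield (n + 1))
    (h : ∀ i j, i ≠ j → ¬ Isomorphic (J i) (J j)) : m ≤ (n + 1) ^ (n / 2 + 1) := by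
  have h1 : Function.Injective fun i => code (J i) := by
    intro i j hij
    by_contra hne
    exact h i j hne (isomorphic_of_code hij)
  have h2 := Fintype.card_le_of_injective _ h1
  rw [Fintype.card_fin, Fintype.card_fun, Fintype.card_option, ZMod.card, Fintype.card_fin] at h2
  exact h2

end Pool.Agent.DNeo
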