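import Pool.Agent.Lib.MP_845d9b_co.Cnt.Half
import Pool.Agent.Lib.MP_845d9b_co.Cnt.Lower
import Pool.Agent.Lib.MP_845d9b_co.Cnt.Upper
import Pool.Agent.Lib.MP_845d9b_co.Abs.All

/-!
# The number of commutative D-neofields (helper44)
-/

set_option autoImplicit false

namespace Pool.Agent.DNA

open Finset Pool.Agent.DNeo

theorem real_ineq {ε n : ℝ} (hε : 0 < ε) (hε1 : ε ≤ 1 / 4) (hn : 3 ≤ n) (hn7 : 7 / ε ≤ n) :
    (n + 1) ^ ((1 / 2 - ε) * (n + 1)) * n ^ 2 ≤ n ^ ((1 / 2 - ε / 2) * n) := by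
  have hn0 : 0 < n := by linarith
  have hn1 : 0 < n + 1 := by linarith
  set L := Real.log n with hL
  have hL1 : 1 ≤ L := by
    rw [hL, Real.le_log_iff_exp_le hn0]
    have := Real.exp_one_lt_d9
    linarith
  have hlog : Real.log (n + 1) ≤ L + 1 / n := by
    have h1 : n + 1 = n * (1 + 1 / n) := by field_simp
    have h2 : 0 < 1 + 1 / n := by positivity
    rw [h1, Real.log_mul hn0.ne' h2.ne']
    have h3 := Real.log_le_sub_one_of_pos h2
    linarith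
  have hsq : n ^ 2 = Real.exp (L * 2) := by
    rw [hL, ← Real.rpow_def_of_pos hn0]
    norm_cast
  rw [Real.rpow_def_of_pos hn1, Real.rpow_def_of_pos hn0, hsq, ← Real.exp_add]
  apply Real.exp_le_exp.mpr
  have h7 : 7 ≤ n * ε := by rwa [div_le_iff₀ hε] at hn7
  set u := 1 / n with hu
  have hnu : n * u = 1 := by rw [hu]; field_simp
  have hu1 : u ≤ 1 := by rw [hu, div_le_one hn0]; linarith
  have hu0 : 0 < u := by rw [hu]; positivity
  have hc0 : 0 ≤ (1 / 2 - ε) * (n + 1) := by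
    apply mul_nonneg <;> linarith
  have h1 : Real.log (n + 1) * ((1 / 2 - ε) * (n + 1)) ≤ (L + u) * ((1 / 2 - ε) * (n + 1)) :=
    mul_le_mul_of_nonneg_right hlog hc0
  have h2 : (L + u) * ((1 / 2 - ε) * (n + 1)) =
      (1 / 2 - ε) * (n * L) + (1 / 2 - ε) * (L + 1 + u) := by
    have : (L + u) * ((1 / 2 - ε) * (n + 1)) =
      (1 / 2 - ε) * (n * L) + (1 / 2 - ε) * (L + n * u + u) := by ring
    rw [this, hnu]
  have h3 : (1 / 2 - ε) * (L + 1 + u) ≤ 1 / 2 * (L + 1 + u) :=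
    mul_le_mul_of_nonneg_right (by linarith) (by linarith)
  have h4 : 7 * L ≤ n * ε * L := mul_le_mul_of_nonneg_right h7 (by linarith)
  have h5 : L * ((1 / 2 - ε / 2) * n) = (1 / 2 - ε) * (n * L) + (n * ε * L) / 2 := by ring
  rw [h5]
  linarith

theorem lower_final (hM : StMany) : ∀ ε : ℝ, 0 < ε → ∃ r0 : ℕ, ∀ r : ℕ, r0 ≤ r →
    ∃ (m : ℕ) (J : Fin m → CommDNeofield r), (r : ℝ) ^ ((1 / 2 - ε) * (r : ℝ)) ≤ (m : ℝ) ∧
      ∀ i j, i ≠ j → ¬ Isomorphic (J i) (J j) := by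
  intro ε0 hε0
  set ε := min ε0 (1 / 4) with hεd
  have hε : 0 < ε := lt_min hε0 (by norm_num)
  have hε1 : ε ≤ 1 / 4 := min_le_right _ _
  have hε2 : ε ≤ ε0 := min_le_left _ _
  obtain ⟨N, hN⟩ := hM (ε / 2) (by positivity)
  refine ⟨N + 7 + ⌈7 / ε⌉₊, fun r hr => ?_⟩
  obtain ⟨n, rfl⟩ : ∃ n, r = n + 1 := ⟨r - 1, by omega⟩
  have hn6 : 6 ≤ n := by omega
  have : NeZero n := ⟨by omega⟩
  have h1 := hN n (by omega)
  obtain ⟨m, J, hm, hJ⟩ := exists_neofields (n := n) hn6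
  refine ⟨m, J, ?_, hJ⟩
  have hnr : (0 : ℝ) < n := by
    have : 0 < n := by omega
    exact_mod_cast this
  have hn3 : (3 : ℝ) ≤ n := by
    have : 3 ≤ n := by omega
    exact_mod_cast this
  have hn7 : 7 / ε ≤ (n : ℝ) := by
    refine (Nat.le_ceil (7 / ε)).trans ?_
    have : ⌈7 / ε⌉₊ ≤ n := by omega
    exact_mod_cast this
  have h2 := real_ineq hε hε1 hn3 hn7
  have h3 : ((HS n).card : ℝ) ≤ (m : ℝ) * (n : ℝ) ^ 2 := by exact_mod_cast hm
  have h4 : ((n : ℝ) + 1) ^ ((1 / 2 - ε) * ((n : ℝ) + 1)) * (n : ℝ) ^ 2 ≤ (m : ℝ) * (n : ℝ) ^ 2 :=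
    h2.trans (h1.trans h3)
  have h5 : ((n : ℝ) + 1) ^ ((1 / 2 - ε) * ((n : ℝ) + 1)) ≤ (m : ℝ) :=
    le_of_mul_le_mul_right h4 (by positivity)
  push_cast
  refine le_trans ?_ h5
  refine Real.rpow_le_rpow_of_exponent_le (by linarith) ?_
  exact mul_le_mul_of_nonneg_right (by linarith) (by linarith)

theorem upper_final : ∀ ε : ℝ, 0 < ε → ∃ r0 : ℕ, ∀ r : ℕ, r0 ≤ r →
    ∀ (m : ℕ) (J : Fin m → CommDNeofield r), (∀ i j, i ≠ j → ¬ Isomorphic (J i) (J j)) →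
      (m : ℝ) ≤ (r : ℝ) ^ ((1 / 2 + ε) * (r : ℝ)) := by
  intro ε hε
  refine ⟨2 + ⌈1 / ε⌉₊, fun r hr m J hJ => ?_⟩
  obtain ⟨n, rfl⟩ : ∃ n, r = n + 1 := ⟨r - 1, by omega⟩
  have : NeZero n := ⟨by omega⟩
  have h1 := upper n m J hJ
  have hr1 : (1 : ℝ) ≤ ((n + 1 : ℕ) : ℝ) := by
    have : 1 ≤ n + 1 := by omega
    exact_mod_cast this
  have hre : 1 ≤ ε * ((n + 1 : ℕ) : ℝ) := by
    have h2 : 1 / ε ≤ ((n + 1 : ℕ) : ℝ) := by
      refine (Nat.le_ceil (1 / ε)).trans ?_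
      have : ⌈1 / ε⌉₊ ≤ n + 1 := by omega
      exact_mod_cast this
    rw [div_le_iff₀ hε] at h2
    linarith
  calc (m : ℝ) ≤ (((n + 1) ^ (n / 2 + 1) : ℕ) : ℝ) := by exact_mod_cast h1
    _ = ((n + 1 : ℕ) : ℝ) ^ (((n / 2 + 1 : ℕ)) : ℝ) := by
        rw [Real.rpow_natCast]; push_cast; rfl
    _ ≤ ((n + 1 : ℕ) : ℝ) ^ ((1 / 2 + ε) * ((n + 1 : ℕ) : ℝ)) := by
        refine Real.rpow_le_rpow_of_exponent_le hr1 ?_
        have h3 : (((n / 2 : ℕ)) : ℝ) ≤ (n : ℝ) / 2 := Nat.cast_div_le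
        push_cast at hre ⊢
        linarith

/-- number of isomorphism classes -/
theorem numClasses_bounds {r : ℕ} {a b : ℝ}
    (h1 : ∃ (m : ℕ) (J : Fin m → CommDNeofield r), a ≤ (m : ℝ) ∧
      ∀ i j, i ≠ j → ¬ Isomorphic (J i) (J j))
    (h2 : ∀ (m : ℕ) (J : Fin m → CommDNeofield r), (∀ i j, i ≠ j → ¬ Isomorphic (J i) (J j)) →
      (m : ℝ) ≤ b) : a ≤ (numClasses r : ℝ) ∧ (numClasses r : ℝ) ≤ b := by
  -- a finite set of classes gives a family
  have hfam : ∀ S : Finset (Quotient (isoSetoid r)), (S.card : ℝ) ≤ b := by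
    intro S
    refine h2 S.card (fun i => (Quotient.out (S.equivFin.symm i : Quotient (isoSetoid r)))) ?_
    intro i j hij hiso
    apply hij
    apply S.equivFin.symm.injective
    apply Subtype.ext
    have h3 : (⟦Quotient.out (S.equivFin.symm i : Quotient (isoSetoid r))⟧ :
        Quotient (isoSetoid r)) = ⟦Quotient.out (S.equivFin.symm j : Quotient (isoSetoid r))⟧ :=
      Quotient.sound hiso
    rwa [Quotient.out_eq, Quotient.out_eq] at h3
  have hfin : Finite (Quotient (isoSetoid r)) := by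
    by_contra hinf
    rw [not_finite_iff_infinite] at hinf
    obtain ⟨S, hS⟩ := Infinite.exists_subset_card_eq (Quotient (isoSetoid r)) (⌊b⌋₊ + 1)
    have h3 := hfam S
    rw [hS] at h3
    have h4 := Nat.lt_floor_add_one b
    push_cast at h3
    linarith
  have := Fintype.ofFinite (Quotient (isoSetoid r))
  have hnum : numClasses r = (Finset.univ : Finset (Quotient (isoSetoid r))).card := by
    unfold numClasses
    rw [Nat.card_eq_fintype_card, Finset.card_univ]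
  constructor
  · obtain ⟨m, J, hm, hJ⟩ := h1
    have h3 : Function.Injective fun i => (⟦J i⟧ : Quotient (isoSetoid r)) := by
      intro i j hij
      by_contra hne
      exact hJ i j hne (Quotient.exact hij)
    have h4 := Fintype.card_le_of_injective _ h3
    rw [Fintype.card_fin, ← Finset.card_univ, ← hnum] at h4
    have h5 : (m : ℝ) ≤ (numClasses r : ℝ) := by exact_mod_cast h4
    linarith
  · rw [hnum]
    exact hfam _

theorem stMany_proved : StMany := by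
  have hFR := stFrame
  have hPU := stPackUnion
  have hPS := stPS hPU (stPS1 hFR)
  have hCS := stCS hPU hFR hPS
  have hSL := stSlot hPU hFR hPS hCS
  have hAB := stAbsorb hPU (Nibble.stTemplate Nibble.stExpander) hSL
  have hM := stMean stK1
  have hB := stBad stK1
  have hC := stCond stK1
  have hFPM := stFPMFinal stEst stFp (stH1 stK1 hB hM) (stH2P stK1 hC hB hM)
    (stH2C stK1 hC hB hM) Nibble.stContract
  have hNE := stNearC hFPM stCount (Nibble.stNibble Nibble.stBite)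
  exact stMany (stSetup stAnchors (stY Nibble.stLower) (stRes Nibble.stLower) hAB stCover) hNE

theorem count_final : ∀ ε : ℝ, 0 < ε → ∃ r0 : ℕ, ∀ r : ℕ, r0 ≤ r →
    Nonempty (CommDNeofield r) ∧
    (r : ℝ) ^ ((1 / 2 - ε) * (r : ℝ)) ≤ (numClasses r : ℝ) ∧
    (numClasses r : ℝ) ≤ (r : ℝ) ^ ((1 / 2 + ε) * (r : ℝ)) := by
  intro ε hε
  obtain ⟨r1, h1⟩ := lower_final stMany_proved ε hε
  obtain ⟨r2, h2⟩ := upper_final ε hε
  refine ⟨r1 + r2 + 1, fun r hr => ?_⟩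
  have hr0 : (0 : ℝ) < (r : ℝ) := by
    have : 0 < r := by omega
    exact_mod_cast this
  have hpos : (0 : ℝ) < (r : ℝ) ^ ((1 / 2 - ε) * (r : ℝ)) := Real.rpow_pos_of_pos hr0 _
  have h3 := h1 r (by omega)
  refine ⟨?_, numClasses_bounds h3 (h2 r (by omega))⟩
  obtain ⟨m, J, hm, -⟩ := h3
  have h4 : (0 : ℝ) < (m : ℝ) := lt_of_lt_of_le hpos hm
  have h5 : 0 < m := by exact_mod_cast h4
  exact ⟨J ⟨0, h5⟩⟩

end Pool.Agent.DNA
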