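import Pool.Agent.Lib.Nibble.Stmts

/-!
# Random restriction of the weighted nibble (helper44)

`h : Ω → Fin K` random; only the edges with `h i = 0` are allowed (with `K` times the weight). For at
least half of the functions `h` the restricted hypergraph has a nearly perfect matching.
-/

set_option autoImplicit false

namespace Pool.Agent.Nibble

open Finset

namespace Restr

variable {Ω : Type} [Fintype Ω] [DecidableEq Ω] {K : ℕ} [NeZero K]

/-- number of functions that vanish on `T` -/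
theorem card_zero (T : Finset Ω) :
    (univ.filter fun h : Ω → Fin K => ∀ p ∈ T, h p = 0).card * K ^ T.card
      = K ^ Fintype.card Ω := by
  have h1 : (univ.filter fun h : Ω → Fin K => ∀ p ∈ T, h p = 0) =
      Fintype.piFinset (fun p => if p ∈ T then ({0} : Finset (Fin K)) else univ) := by
    ext h
    rw [mem_filter, Fintype.mem_piFinset]
    constructor
    · rintro ⟨-, h2⟩ p
      split_ifs with hp
      · rw [mem_singleton]; exact h2 p hp
      · exact mem_univ _
    · intro h2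
      refine ⟨mem_univ _, fun p hp => ?_⟩
      have h3 := h2 p
      rw [if_pos hp, mem_singleton] at h3
      exact h3
  have h2 : ∀ p : Ω, (if p ∈ T then ({0} : Finset (Fin K)) else univ).card
      = if p ∈ T then 1 else K := by
    intro p
    split_ifs
    · exact card_singleton _
    · rw [card_univ, Fintype.card_fin]
  rw [h1, Fintype.card_piFinset, prod_congr rfl fun p _ => h2 p, prod_ite, prod_const_one, one_mul,
    prod_const, ← pow_add]
  congr 1
  have h3 : (univ.filter fun p : Ω => p ∉ T) = univ \ T := by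
    ext p; simp
  rw [h3, card_sdiff_of_subset (subset_univ _), card_univ]
  have := card_le_univ T
  omega

/-- indicator of `h p = 0`, times `K` -/
noncomputable def Z (h : Ω → Fin K) (p : Ω) : ℝ := if h p = 0 then (K : ℝ) else 0

theorem sum_Z (p : Ω) : ∑ h : Ω → Fin K, Z h p = (K : ℝ) ^ Fintype.card Ω := by
  have h1 := card_zero (K := K) ({p} : Finset Ω)
  have h2 : (univ.filter fun h : Ω → Fin K => ∀ q ∈ ({p} : Finset Ω), h q = 0) =
      univ.filter fun h : Ω → Fin K => h p = 0 := by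
    ext h; simp
  rw [h2, card_singleton, pow_one] at h1
  unfold Z
  rw [← sum_filter, sum_const, nsmul_eq_mul]
  exact_mod_cast h1

theorem sum_ZZ {p q : Ω} (hpq : p ≠ q) :
    ∑ h : Ω → Fin K, Z h p * Z h q = (K : ℝ) ^ Fintype.card Ω := by
  have h1 := card_zero (K := K) ({p, q} : Finset Ω)
  have h2 : (univ.filter fun h : Ω → Fin K => ∀ r ∈ ({p, q} : Finset Ω), h r = 0) =
      univ.filter fun h : Ω → Fin K => h p = 0 ∧ h q = 0 := by
    ext h; simp
  rw [h2, card_pair hpq] at h1
  have h3 : ∀ h : Ω → Fin K, Z h p * Z h q = if h p = 0 ∧ h q = 0 then (K : ℝ) ^ 2 else 0 := by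
    intro h
    unfold Z
    by_cases ha : h p = 0 <;> by_cases hb : h q = 0 <;> simp [ha, hb, sq]
  rw [sum_congr rfl fun h _ => h3 h, ← sum_filter, sum_const, nsmul_eq_mul]
  exact_mod_cast h1

theorem sum_Z2 (p : Ω) :
    ∑ h : Ω → Fin K, Z h p * Z h p = (K : ℝ) * (K : ℝ) ^ Fintype.card Ω := by
  have h3 : ∀ h : Ω → Fin K, Z h p * Z h p = (K : ℝ) * Z h p := by
    intro h
    unfold Z
    by_cases ha : h p = 0 <;> simp [ha]
  rw [sum_congr rfl fun h _ => h3 h, ← mul_sum, sum_Z]

/-- second moment -/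
theorem second_moment (c : Ω → ℝ) {M : ℝ} (hc0 : ∀ p, 0 ≤ c p) (hcM : ∀ p, c p ≤ M) :
    ∑ h : Ω → Fin K, (∑ p, c p * Z h p - ∑ p, c p) ^ 2
      ≤ (K : ℝ) ^ Fintype.card Ω * (K * M * ∑ p, c p) := by
  set m := ∑ p, c p with hm
  set N : ℝ := (K : ℝ) ^ Fintype.card Ω with hN
  have hN0 : 0 ≤ N := by positivity
  have e1 : ∀ h : Ω → Fin K, (∑ p, c p * Z h p - m) ^ 2 =
      ∑ p, ∑ q, c p * c q * (Z h p * Z h q) - 2 * m * ∑ p, c p * Z h p + m ^ 2 := by
    intro h
    have e2 : ∑ p, ∑ q, c p * c q * (Z h p * Z h q) = (∑ p, c p * Z h p) ^ 2 := by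
      rw [sq, sum_mul_sum]
      refine sum_congr rfl fun p _ => sum_congr rfl fun q _ => ?_
      ring
    rw [e2]; ring
  rw [sum_congr rfl fun h _ => e1 h, sum_add_distrib, sum_sub_distrib]
  have e3 : ∑ h : Ω → Fin K, 2 * m * ∑ p, c p * Z h p = 2 * m * (N * m) := by
    rw [← mul_sum, sum_comm]
    congr 1
    rw [hm, mul_sum]
    refine sum_congr rfl fun p _ => ?_
    rw [← mul_sum, sum_Z]; ring
  have e4 : ∑ _h : Ω → Fin K, m ^ 2 = N * m ^ 2 := by
    rw [sum_const, nsmul_eq_mul, card_univ, Fintype.card_fun, Fintype.card_fin]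
    push_cast
    rfl
  have e5 : ∑ h : Ω → Fin K, ∑ p, ∑ q, c p * c q * (Z h p * Z h q) ≤
      N * m ^ 2 + N * (K * M * m) := by
    have e6 : ∀ p q, ∑ h : Ω → Fin K, c p * c q * (Z h p * Z h q) ≤
        c p * c q * N + (if p = q then c p * c q * (K * N) else 0) := by
      intro p q
      rw [← mul_sum]
      by_cases hpq : p = q
      · subst hpq
        rw [sum_Z2, if_pos rfl]
        have : 0 ≤ c p * c p * N := mul_nonneg (mul_nonneg (hc0 p) (hc0 p)) hN0
        linarith
      · rw [sum_ZZ hpq, if_neg hpq, add_zero]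
    rw [sum_comm]
    calc ∑ p, ∑ h : Ω → Fin K, ∑ q, c p * c q * (Z h p * Z h q)
        = ∑ p, ∑ q, ∑ h : Ω → Fin K, c p * c q * (Z h p * Z h q) := by
          refine sum_congr rfl fun p _ => ?_
          rw [sum_comm]
      _ ≤ ∑ p, ∑ q, (c p * c q * N + (if p = q then c p * c q * (K * N) else 0)) :=
          sum_le_sum fun p _ => sum_le_sum fun q _ => e6 p q
      _ = N * m ^ 2 + ∑ p, c p * c p * (K * N) := by
          simp only [sum_add_distrib, sum_ite_eq, mem_univ, if_true]
          congr 1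
          rw [hm, sq, sum_mul_sum, mul_sum]
          refine sum_congr rfl fun p _ => ?_
          rw [mul_sum]
          refine sum_congr rfl fun q _ => ?_
          ring
      _ ≤ N * m ^ 2 + N * (K * M * m) := by
          refine add_le_add le_rfl ?_
          rw [hm, mul_sum, mul_sum]
          refine sum_le_sum fun p _ => ?_
          have h1 : c p * c p ≤ M * c p := mul_le_mul_of_nonneg_right (hcM p) (hc0 p)
          have h2 : 0 ≤ (K : ℝ) * N := by positivity
          calc c p * c p * (K * N) ≤ M * c p * (K * N) := mul_le_mul_of_nonneg_right h1 h2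
            _ = N * (K * M * c p) := by ring
  rw [e3, e4]
  nlinarith

/-- Chebyshev -/
theorem chebyshev (c : Ω → ℝ) {M η B : ℝ} (hη : 0 < η) (hc0 : ∀ p, 0 ≤ c p) (hcM : ∀ p, c p ≤ M)
    (hM : 0 ≤ M) (hB : ∑ p, c p ≤ B) :
    ((univ.filter fun h : Ω → Fin K => η < |∑ p, c p * Z h p - ∑ p, c p|).card : ℝ)
      ≤ (K : ℝ) ^ Fintype.card Ω * (K * M * B / η ^ 2) := by
  have h1 := second_moment (K := K) c hc0 hcM
  have h2 : ((univ.filter fun h : Ω → Fin K => η < |∑ p, c p * Z h p - ∑ p, c p|).card : ℝ) * η ^ 2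
      ≤ ∑ h : Ω → Fin K, (∑ p, c p * Z h p - ∑ p, c p) ^ 2 := by
    rw [← nsmul_eq_mul, ← sum_const]
    refine (sum_le_sum fun h hh => ?_).trans
      (sum_le_sum_of_subset_of_nonneg (filter_subset _ _) fun h _ _ => sq_nonneg _)
    rw [mem_filter] at hh
    rw [← sq_abs (∑ p, c p * Z h p - ∑ p, c p)]
    exact pow_le_pow_left₀ hη.le hh.2.le 2
  have h3 : (K : ℝ) ^ Fintype.card Ω * (K * M * ∑ p, c p) ≤
      (K : ℝ) ^ Fintype.card Ω * (K * M * B) := by
    refine mul_le_mul_of_nonneg_left ?_ (by positivity)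
    exact mul_le_mul_of_nonneg_left hB (by positivity)
  have hη2 : 0 < η ^ 2 := by positivity
  rw [← mul_div_assoc, le_div_iff₀ hη2]
  linarith

end Restr

open Restr in
open Classical in
/-- the nibble with randomly restricted edges -/
theorem nibble_restricted (hNib : StNibble) : ∀ r : ℕ, 2 ≤ r → ∀ γ : ℝ, 0 < γ → ∃ δ : ℝ, 0 < δ ∧
    ∀ (V ι : Type) [Fintype V] [DecidableEq V] [Fintype ι] [DecidableEq ι]
      (e : ι → Finset V) (w : ι → ℝ) (K : ℕ) [NeZero K] (M : ℝ),
      (∀ i, 0 ≤ w i) → (∀ i, w i ≤ M) → 0 ≤ M → (∀ i, w i ≠ 0 → (e i).card = r) →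
      (∀ v, |(∑ i, if v ∈ e i then w i else 0) - 1| ≤ δ) →
      (∀ u v, u ≠ v → (∑ i, if u ∈ e i ∧ v ∈ e i then w i else 0) ≤ δ) →
      K * M * (Fintype.card V : ℝ) ^ 2 ≤ δ →
      ∃ Gd : Finset (ι → Fin K), (K : ℝ) ^ Fintype.card ι ≤ 2 * (Gd.card : ℝ) ∧
        ∀ h ∈ Gd, ∃ Mt : Finset ι, (∀ i ∈ Mt, w i ≠ 0 ∧ h i = 0) ∧
          (∀ i ∈ Mt, ∀ j ∈ Mt, i ≠ j → Disjoint (e i) (e j)) ∧
          (((univ.filter fun v => ∀ i ∈ Mt, v ∉ e i).card : ℝ) ≤ γ * (Fintype.card V : ℝ)) := by
  intro r hr γ hγ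
  obtain ⟨δN, hδN, hN⟩ := hNib r hr γ hγ
  obtain ⟨δ, hδ, hδ1, hδ2, hδ3⟩ : ∃ δ : ℝ, 0 < δ ∧ δ ≤ δN / 2 ∧ δ ≤ 1 ∧ δ ≤ δN ^ 2 / 16 := by
    refine ⟨min (min (δN / 2) 1) (δN ^ 2 / 16), ?_, ?_, ?_, ?_⟩
    · exact lt_min (lt_min (by positivity) one_pos) (by positivity)
    · exact (min_le_left _ _).trans (min_le_left _ _)
    · exact (min_le_left _ _).trans (min_le_right _ _)
    · exact min_le_right _ _
  refine ⟨δ, hδ, ?_⟩
  intro V ι _ _ _ _ e w K _ M hw0 hwM hM hcard hdeg hcod hK
  -- weights through a pair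
  set c : V × V → ι → ℝ := fun a p => if a.1 ∈ e p ∧ a.2 ∈ e p then w p else 0 with hc
  have hc0 : ∀ a p, 0 ≤ c a p := by
    intro a p
    simp only [hc]
    split_ifs
    · exact hw0 p
    · exact le_rfl
  have hcM : ∀ a p, c a p ≤ M := by
    intro a p
    simp only [hc]
    split_ifs
    · exact hwM p
    · exact hM
  have hcdeg : ∀ v, ∑ p, c (v, v) p = ∑ i, if v ∈ e i then w i else 0 := by
    intro v
    refine sum_congr rfl fun p _ => ?_
    simp only [hc, and_self]
  have hcB : ∀ a, ∑ p, c a p ≤ 2 := by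
    rintro ⟨u, v⟩
    by_cases huv : u = v
    · subst huv
      rw [hcdeg]
      have := abs_le.mp (hdeg u)
      linarith [this.2]
    · have := hcod u v huv
      have h2 : ∑ p, c (u, v) p = ∑ i, if u ∈ e i ∧ v ∈ e i then w i else 0 := rfl
      rw [h2]
      linarith
  set η : ℝ := δN / 2 with hη
  have hη0 : 0 < η := by positivity
  set Bd : V × V → Finset (ι → Fin K) := fun a =>
    univ.filter fun h => η < |∑ p, c a p * Z h p - ∑ p, c a p| with hBd
  set Bad : Finset (ι → Fin K) := univ.biUnion Bd with hBad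
  set N : ℝ := (K : ℝ) ^ Fintype.card ι with hN'
  have hN0 : 0 ≤ N := by positivity
  have hBadc : (Bad.card : ℝ) ≤ N / 2 := by
    have h1 : (Bad.card : ℝ) ≤ ∑ a : V × V, ((Bd a).card : ℝ) := by
      exact_mod_cast card_biUnion_le
    have h2 : ∀ a : V × V, ((Bd a).card : ℝ) ≤ N * (K * M * 2 / η ^ 2) := fun a =>
      chebyshev (c a) hη0 (hc0 a) (hcM a) hM (hcB a)
    calc (Bad.card : ℝ) ≤ ∑ a : V × V, ((Bd a).card : ℝ) := h1
      _ ≤ ∑ _a : V × V, N * (K * M * 2 / η ^ 2) := sum_le_sum fun a _ => h2 a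
      _ = N * (K * M * (Fintype.card V : ℝ) ^ 2 * 2 / η ^ 2) := by
          rw [sum_const, nsmul_eq_mul, card_univ, Fintype.card_prod]
          push_cast
          ring
      _ ≤ N * (1 / 2) := by
          refine mul_le_mul_of_nonneg_left ?_ hN0
          rw [div_le_iff₀ (by positivity), hη]
          nlinarith
      _ = N / 2 := by ring
  refine ⟨univ \ Bad, ?_, ?_⟩
  · have h1 : (univ \ Bad).card + Bad.card = Fintype.card (ι → Fin K) := by
      rw [card_sdiff_add_card_eq_card (subset_univ _), card_univ]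
    have h2 : (((univ \ Bad).card : ℝ) + (Bad.card : ℝ)) = N := by
      rw [hN', ← Nat.cast_pow, ← Nat.cast_add, h1, Fintype.card_fun, Fintype.card_fin]
    linarith
  · intro h hh
    have hgood : ∀ a, |∑ p, c a p * Z h p - ∑ p, c a p| ≤ η := by
      intro a
      by_contra hcon
      push Not at hcon
      rw [mem_sdiff] at hh
      apply hh.2
      rw [hBad, mem_biUnion]
      exact ⟨a, mem_univ _, by rw [hBd]; exact mem_filter.mpr ⟨mem_univ _, hcon⟩⟩
    let ι' := {i : ι // w i ≠ 0 ∧ h i = 0}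
    have hsum : ∀ a : V × V, (∑ i : ι', if a.1 ∈ e i ∧ a.2 ∈ e i then (K : ℝ) * w i else 0) =
        ∑ p, c a p * Z h p := by
      intro a
      have h1 : (∑ i : ι', if a.1 ∈ e i ∧ a.2 ∈ e i then (K : ℝ) * w i else 0) =
          ∑ p ∈ univ.filter (fun i : ι => w i ≠ 0 ∧ h i = 0),
            (if a.1 ∈ e p ∧ a.2 ∈ e p then (K : ℝ) * w p else 0) := by
        rw [Finset.sum_subtype (p := fun i : ι => w i ≠ 0 ∧ h i = 0)
          (univ.filter (fun i : ι => w i ≠ 0 ∧ h i = 0)) (by simp)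
          (fun p => if a.1 ∈ e p ∧ a.2 ∈ e p then (K : ℝ) * w p else 0)]
      rw [h1, sum_filter]
      refine sum_congr rfl fun p _ => ?_
      simp only [hc, Z]
      by_cases h2 : w p = 0
      · simp [h2]
      · by_cases h3 : h p = 0 <;> by_cases h4 : a.1 ∈ e p ∧ a.2 ∈ e p <;> simp [h2, h3, h4]
        ring
    obtain ⟨Mt, hMt, hunc⟩ := hN V ι' (fun i => e i) (fun i => K * w i)
      (fun i => mul_nonneg (Nat.cast_nonneg _) (hw0 i)) (fun i => hcard i i.2.1)
      (by
        intro v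
        have h1 := hsum (v, v)
        simp only [and_self] at h1
        rw [h1]
        have h2 := hgood (v, v)
        have h3 := hdeg v
        rw [← hcdeg] at h3
        calc |∑ p, c (v, v) p * Z h p - 1|
            = |(∑ p, c (v, v) p * Z h p - ∑ p, c (v, v) p) + (∑ p, c (v, v) p - 1)| := by
              congr 1; ring
          _ ≤ _ := abs_add_le _ _
          _ ≤ η + δ := add_le_add h2 h3
          _ ≤ δN := by rw [hη]; linarith)
      (by
        intro u v huv
        have h1 := hsum (u, v)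
        simp only at h1
        rw [h1]
        have h2 := (abs_le.mp (hgood (u, v))).2
        have h3 : ∑ p, c (u, v) p ≤ δ := hcod u v huv
        rw [hη] at h2
        linarith)
    refine ⟨Mt.image Subtype.val, ?_, ?_, ?_⟩
    · intro i hi
      rw [mem_image] at hi
      obtain ⟨i', _, rfl⟩ := hi
      exact i'.2
    · intro i hi j hj hij
      rw [mem_image] at hi hj
      obtain ⟨i', hi', rfl⟩ := hi
      obtain ⟨j', hj', rfl⟩ := hj
      exact hMt i' hi' j' hj' fun h1 => hij (by rw [h1])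
    · refine le_trans (le_of_eq ?_) hunc
      congr 2
      ext v
      rw [mem_filter, mem_filter]
      constructor
      · rintro ⟨_, h1⟩
        exact ⟨mem_univ _, fun i hi => h1 i (mem_image_of_mem _ hi)⟩
      · rintro ⟨_, h1⟩
        refine ⟨mem_univ _, fun i hi => ?_⟩
        rw [mem_image] at hi
        obtain ⟨i', hi', rfl⟩ := hi
        exact h1 i' hi'

end Pool.Agent.Nibble
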