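import Pool.Agent.Lib.MP_845d9b_co.Abs.Near
import Pool.Agent.Lib.MP_845d9b_co.Cnt.Restrict

/-!
# Nearly perfect packing of the blocks: many of them (helper44)

`h : J' × tuples → Fin (n^(Q-5))` random; for at least half of the functions `h` there is a nearly
perfect packing which uses only pairs (block, tuple) with `h = 0`. Adapted from `Abs/Near.lean`.
-/

set_option autoImplicit false

namespace Pool.Agent.DNA

open Finset

instance neZero_pow' {n k : ℕ} [NeZero n] : NeZero (n ^ k) := ⟨pow_ne_zero k (NeZero.ne n)⟩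

/-- nearly perfect packing with restricted tuples, for at least half of the restrictions -/
def StNearC : Prop :=
  ∃ Q0 : ℕ, 20 ≤ Q0 ∧ ∀ Q : ℕ, Q0 ≤ Q → ∃ μ0 : ℝ, 0 < μ0 ∧ ∀ γ : ℝ, 0 < γ → ∃ N : ℕ,
    ∀ n : ℕ, N ≤ n → ∀ [NeZero n], ∀ (U : ℕ → ZMod n) (J' : Finset ℕ) (E' : Finset (Elt n)),
      NearHyp n Q U μ0 J' E' →
      ∃ Gd : Finset (J' × (Fin (Q - 1) → ZMod n) → Fin (n ^ (Q - 5))),
        ((n ^ (Q - 5) : ℕ) : ℝ) ^ Fintype.card (J' × (Fin (Q - 1) → ZMod n)) ≤
          2 * (Gd.card : ℝ) ∧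
        ∀ h ∈ Gd, ∃ J'' ⊆ J', (J''.card : ℝ) ≤ γ * n ∧ ∃ S ⊆ E', ∃ F : ℕ → ℕ → ZMod n,
          Packs n Q U (J' \ J'') F S ∧
          ∀ j : J', (j : ℕ) ∉ J'' → ∃ m, F j = ext n Q U j m ∧ h (j, m) = 0

open NearAux in
open Classical in
theorem stNearC (h1 : StFPM) (h2 : StCount) (h3 : Nibble.StNibble) : StNearC := by
  obtain ⟨Q0, hQ0, hF⟩ := h1
  refine ⟨Q0, hQ0, ?_⟩
  intro Q hQ
  obtain ⟨μ0, W, hμ0, hW, N1, hF⟩ := hF Q hQ
  refine ⟨μ0, hμ0, ?_⟩
  intro γ hγ
  obtain ⟨δ, hδ, hN⟩ := Nibble.nibble_restricted h3 (3 * Q - 1) (by omega) (γ / 3) (by positivity)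
  obtain ⟨C, hC⟩ := h2 Q (by omega)
  refine ⟨max N1 (max (4 * Q) (⌈2 * Q * (C * W) / δ⌉₊ + ⌈9 * W / δ⌉₊ + 1)), ?_⟩
  intro n hn _ U J' E' hyp
  have hn1 : N1 ≤ n := le_trans (le_max_left _ _) hn
  have hn2 : 4 * Q ≤ n := le_trans (le_trans (le_max_left _ _) (le_max_right _ _)) hn
  have hn3' : ⌈2 * Q * (C * W) / δ⌉₊ + ⌈9 * W / δ⌉₊ + 1 ≤ n :=
    le_trans (le_trans (le_max_right _ _) (le_max_right _ _)) hn
  have hn3 : ⌈2 * Q * (C * W) / δ⌉₊ + 1 ≤ n := by omega
  have hnpos : 0 < n := by omega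
  have hnR : (0 : ℝ) < n := by exact_mod_cast hnpos
  obtain ⟨w, w0, wW, ws, wJ, wE⟩ := hF n hn1 U J' E' hyp
  obtain ⟨c1, c2, c3, c4⟩ := hC n hn2 U hyp.fix
  have hJB : J' ⊆ Blocks n Q := hyp.sub
  have hEA : E' ⊆ All n := fun y hy => (mem_sdiff.1 (hyp.sub' hy)).1
  -- the small quantity
  set κ : ℝ := C * W / n with hκ
  have hκ0 : 0 ≤ κ := by rw [hκ]; positivity
  have hpow : (n : ℝ) ^ (Q - 1) = (n : ℝ) ^ (Q - 2) * n := by
    rw [← pow_succ]
    congr 1
    omega
  have hκ' : (C : ℝ) * (n : ℝ) ^ (Q - 2) * (W / (n : ℝ) ^ (Q - 1)) = κ := by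
    rw [hpow, hκ]
    field_simp
  have hWn : 0 ≤ W / (n : ℝ) ^ (Q - 1) := by positivity
  have hκδ : 2 * Q * κ ≤ δ := by
    have h4 : 2 * Q * (C * W) / δ ≤ n := by
      have := Nat.le_ceil (2 * Q * (C * W) / δ)
      have h6 : ⌈2 * Q * (C * W) / δ⌉₊ ≤ n := by omega
      have h5 : ((⌈2 * Q * (C * W) / δ⌉₊ : ℕ) : ℝ) ≤ (n : ℝ) := Nat.cast_le.2 h6
      linarith
    rw [div_le_iff₀ hδ] at h4
    rw [hκ]
    have : 2 * (Q : ℝ) * (C * W / n) = 2 * Q * (C * W) / n := by ring
    rw [this, div_le_iff₀ hnR]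
    linarith
  have hQR : (1 : ℝ) ≤ Q := by exact_mod_cast (by omega)
  have hκδ' : κ ≤ δ := by nlinarith
  -- the index type
  let Mt := Fin (Q - 1) → ZMod n
  let mu : ℕ → Mt → Elt n → ℕ := fun j m y => mult n Q j (ext n Q U j m) y
  let G : ℕ → Mt → Prop := fun j m => w j m ≠ 0 ∧ ∀ y, mu j m y ≤ 1
  let ι := J' × Mt
  let V := J' ⊕ E'
  let e : ι → Finset V := fun p =>
    univ.filter fun v => Sum.elim (fun j : J' => j = p.1)
      (fun y : E' => mu p.1 p.2 y ≠ 0) v
  let ww : ι → ℝ := fun p => if G p.1 p.2 then w p.1 p.2 else 0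
  have hww0 : ∀ p, 0 ≤ ww p := by
    intro p
    simp only [ww]
    split_ifs
    · exact w0 _ _
    · exact le_rfl
  have hwwM : ∀ p, ww p ≤ W / (n : ℝ) ^ (Q - 1) := by
    intro p
    simp only [ww]
    split_ifs
    · exact wW _ _
    · positivity
  have hwwG : ∀ p, ww p ≠ 0 → G p.1 p.2 := by
    intro p hp
    by_contra hcon
    exact hp (if_neg hcon)
  have hsumι : ∀ h : J' → Mt → ℝ, ∑ p : ι, (if G p.1 p.2 then h p.1 p.2 else 0)
      = ∑ j : J', ∑ m, if G j m then h j m else 0 := fun h =>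
    Fintype.sum_prod_type (fun p : ι => if G p.1 p.2 then h p.1 p.2 else 0)
  have hmem1 : ∀ (j : J') (p : ι), (Sum.inl j : V) ∈ e p ↔ j = p.1 := by
    intro j p
    simp [e]
  have hmem2 : ∀ (y : E') (p : ι), (Sum.inr y : V) ∈ e p ↔ mu p.1 p.2 y ≠ 0 := by
    intro y p
    simp [e]
  -- cardinalities of the edges
  have hsup : ∀ (p : ι), G p.1 p.2 → ∀ (y : Elt n), mu p.1 p.2 y ≠ 0 → y ∈ E' := by
    intro p hp y hy
    exact (ws _ _ hp.1).2 y hy
  have hcard : ∀ p, ww p ≠ 0 → (e p).card = 3 * Q - 1 := by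
    intro p hwp
    have hGp := hwwG p hwp
    have hL : (e p).toLeft = {p.1} := by
      ext j
      rw [Finset.mem_toLeft, hmem1, mem_singleton]
    have hfoot : (foot n Q p.1 (ext n Q U p.1 p.2)).card = 3 * Q - 2 :=
      (isFill_ext (by omega) hEA (fun y hy => hsup p hGp y hy) hGp.2).card
    have hR : (e p).toRight.card = 3 * Q - 2 := by
      rw [← hfoot]
      refine Finset.card_bij (fun y _ => (y : Elt n)) ?_ ?_ ?_
      · intro y hy
        rw [Finset.mem_toRight, hmem2] at hy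
        exact mem_foot.2 hy
      · intro y _ y' _ h4
        exact Subtype.ext h4
      · intro y hy
        rw [mem_foot] at hy
        refine ⟨⟨y, hsup p hGp y hy⟩, ?_, rfl⟩
        rw [Finset.mem_toRight, hmem2]
        exact hy
    rw [← Finset.card_toLeft_add_card_toRight (u := e p), hL, hR, card_singleton]
    omega
  -- sums over few tuples
  have hfew : ∀ (j : ℕ) (A : Mt → Prop) [DecidablePred A], ((univ.filter fun m => A m).card : ℝ)
        ≤ (C : ℝ) * (n : ℝ) ^ (Q - 2) →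
      (∑ m, if A m then w j m else 0) ≤ κ := by
    intro j A _ hA
    rw [← Finset.sum_filter]
    calc ∑ m ∈ univ.filter (fun m => A m), w j m
        ≤ ∑ _m ∈ univ.filter (fun m => A m), W / (n : ℝ) ^ (Q - 1) :=
          Finset.sum_le_sum fun m _ => wW j m
      _ = ((univ.filter fun m => A m).card : ℝ) * (W / (n : ℝ) ^ (Q - 1)) := by
          rw [Finset.sum_const, nsmul_eq_mul]
      _ ≤ (C : ℝ) * (n : ℝ) ^ (Q - 2) * (W / (n : ℝ) ^ (Q - 1)) :=
          mul_le_mul_of_nonneg_right hA hWn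
      _ = κ := hκ'
  have hfew2 : ∀ (A : ℕ → Mt → Prop) [∀ j, DecidablePred (A j)], ((∑ j ∈ Blocks n Q, (univ.filter fun m => A j m).card : ℕ) : ℝ)
        ≤ (C : ℝ) * (n : ℝ) ^ (Q - 2) →
      (∑ j : J', ∑ m, if A j m then w j m else 0) ≤ κ := by
    intro A _ hA
    rw [Finset.sum_coe_sort J' (fun j => ∑ m, if A j m then w j m else 0)]
    calc (∑ j ∈ J', ∑ m, if A j m then w j m else 0)
        ≤ ∑ j ∈ J', ((univ.filter fun m => A j m).card : ℝ) * (W / (n : ℝ) ^ (Q - 1)) := by
          refine Finset.sum_le_sum fun j _ => ?_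
          rw [← Finset.sum_filter]
          calc ∑ m ∈ univ.filter (fun m => A j m), w j m
              ≤ ∑ _m ∈ univ.filter (fun m => A j m), W / (n : ℝ) ^ (Q - 1) :=
                Finset.sum_le_sum fun m _ => wW j m
            _ = ((univ.filter fun m => A j m).card : ℝ) * (W / (n : ℝ) ^ (Q - 1)) := by
                rw [Finset.sum_const, nsmul_eq_mul]
      _ ≤ ∑ j ∈ Blocks n Q, ((univ.filter fun m => A j m).card : ℝ) * (W / (n : ℝ) ^ (Q - 1)) :=
          Finset.sum_le_sum_of_subset_of_nonneg hJB (fun _ _ _ => by positivity)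
      _ = ((∑ j ∈ Blocks n Q, (univ.filter fun m => A j m).card : ℕ) : ℝ)
            * (W / (n : ℝ) ^ (Q - 1)) := by
          push_cast
          rw [Finset.sum_mul]
      _ ≤ (C : ℝ) * (n : ℝ) ^ (Q - 2) * (W / (n : ℝ) ^ (Q - 1)) :=
          mul_le_mul_of_nonneg_right hA hWn
      _ = κ := hκ'
  have hcastle : ∀ a : ℕ, a ≤ C * n ^ (Q - 2) → (a : ℝ) ≤ (C : ℝ) * (n : ℝ) ^ (Q - 2) := by
    intro a ha
    exact_mod_cast ha
  -- degrees
  have hdeg : ∀ v : V, |(∑ i, if v ∈ e i then ww i else 0) - 1| ≤ δ := by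
    intro v
    rcases v with j | y
    · have e1 : (∑ i, if (Sum.inl j : V) ∈ e i then ww i else 0)
          = ∑ m, if G j m then w j m else 0 := by
        have e2 : (∑ i, if (Sum.inl j : V) ∈ e i then ww i else 0)
            = ∑ p : ι, (if G p.1 p.2 then
                (fun (j' : J') (m : Mt) => if j = j' then w j' m else 0) p.1 p.2 else 0) := by
          refine Finset.sum_congr rfl fun p _ => ?_
          by_cases h4 : j = p.1
          · rw [if_pos ((hmem1 j p).2 h4)]
            simp only [ww, if_pos h4]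
          · rw [if_neg (fun h5 => h4 ((hmem1 j p).1 h5))]
            simp only [if_neg h4, ite_self]
        refine e2.trans ((hsumι (fun (j' : J') (m : Mt) => if j = j' then w j' m else 0)).trans ?_)
        rw [Finset.sum_eq_single j]
        · refine Finset.sum_congr rfl fun m _ => ?_
          simp
        · intro j' _ hj'
          refine Finset.sum_eq_zero fun m _ => ?_
          simp [Ne.symm hj']
        · intro h4
          exact absurd (mem_univ _) h4
      rw [e1]
      have e3 : (∑ m, if G j m then w j m else 0)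
          + (∑ m, if ∃ y, 2 ≤ mu j m y then w j m else 0) = 1 := by
        rw [← wJ j j.2, ← Finset.sum_add_distrib]
        refine Finset.sum_congr rfl fun m _ => ?_
        by_cases hw : w j m = 0
        · simp [hw, G]
        · by_cases hb : ∃ y, 2 ≤ mu j m y
          · rw [if_pos hb, if_neg, zero_add]
            rintro ⟨_, h5⟩
            obtain ⟨y, hy⟩ := hb
            have := h5 y
            omega
          · rw [if_neg hb, if_pos, add_zero]
            refine ⟨hw, fun y => ?_⟩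
            by_contra h5
            exact hb ⟨y, by omega⟩
      have e4 : (∑ m, if ∃ y, 2 ≤ mu j m y then w j m else 0) ≤ κ := by
        refine hfew j _ (hcastle _ ?_)
        exact c2 j (hJB j.2)
      have e5 : 0 ≤ (∑ m, if ∃ y, 2 ≤ mu j m y then w j m else 0) := by
        refine Finset.sum_nonneg fun m _ => ?_
        split_ifs
        · exact w0 j m
        · exact le_refl _
      rw [abs_le]
      constructor <;> linarith
    · have e1 : (∑ i, if (Sum.inr y : V) ∈ e i then ww i else 0)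
          = ∑ j : J', ∑ m, if G j m then (if mu j m y ≠ 0 then w j m else 0) else 0 := by
        rw [← hsumι (fun (j : J') (m : Mt) => if mu j m y ≠ 0 then w j m else 0)]
        refine Finset.sum_congr rfl fun p _ => ?_
        simp only [hmem2, ww]
        split_ifs <;> rfl
      have e3 : ∑ j : J', ∑ m, w j m * (mu j m y : ℝ) = 1 := by
        rw [Finset.sum_coe_sort J' (fun j => ∑ m, w j m * (mu j m y : ℝ))]
        exact wE y y.2
      have e4 : ∀ (j : J') (m : Mt),
          (if G j m then (if mu j m y ≠ 0 then w j m else 0) else 0) ≤ w j m * (mu j m y : ℝ)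
          ∧ w j m * (mu j m y : ℝ) ≤ (if G j m then (if mu j m y ≠ 0 then w j m else 0) else 0)
            + 2 * Q * (if mu j m y ≠ 0 ∧ ∃ y', 2 ≤ mu j m y' then w j m else 0) := by
        intro j m
        have hwn := w0 j m
        have hmn : (0 : ℝ) ≤ (mu j m y : ℝ) := Nat.cast_nonneg _
        by_cases hG : G j m
        · rw [if_pos hG]
          have hb : ¬ (mu j m y ≠ 0 ∧ ∃ y', 2 ≤ mu j m y') := by
            rintro ⟨_, y', hy'⟩
            have := hG.2 y'
            omega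
          rw [if_neg hb]
          by_cases h0 : mu j m y = 0
          · simp [h0]
          · have h1' : mu j m y = 1 := by
              have := hG.2 y
              omega
            rw [if_pos h0, h1']
            simp
        · rw [if_neg hG]
          refine ⟨mul_nonneg hwn hmn, ?_⟩
          by_cases hw : w j m = 0
          · simp [hw]
          · have hb : ∃ y', 2 ≤ mu j m y' := by
              by_contra hb
              apply hG
              refine ⟨hw, fun y' => ?_⟩
              by_contra h5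
              exact hb ⟨y', by omega⟩
            by_cases h0 : mu j m y = 0
            · simp [h0]
            · rw [if_pos ⟨h0, hb⟩]
              have hle : (mu j m y : ℝ) ≤ 2 * Q := by
                have : mu j m y ≤ 2 * Q := mult_le _ _ _
                exact_mod_cast this
              nlinarith
      have e5 : (∑ j : J', ∑ m, if mu j m y ≠ 0 ∧ ∃ y', 2 ≤ mu j m y' then w j m else 0) ≤ κ := by
        refine hfew2 (fun j m => mu j m y ≠ 0 ∧ ∃ y', 2 ≤ mu j m y') (hcastle _ ?_)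
        exact c4 y (hEA y.2)
      have e6 : (∑ j : J', ∑ m, if G j m then (if mu j m y ≠ 0 then w j m else 0) else 0)
          ≤ ∑ j : J', ∑ m, w j m * (mu j m y : ℝ) :=
        Finset.sum_le_sum fun j _ => Finset.sum_le_sum fun m _ => (e4 j m).1
      have e7 : (∑ j : J', ∑ m, w j m * (mu j m y : ℝ))
          ≤ (∑ j : J', ∑ m, if G j m then (if mu j m y ≠ 0 then w j m else 0) else 0)
            + 2 * Q * ∑ j : J', ∑ m,
              (if mu j m y ≠ 0 ∧ ∃ y', 2 ≤ mu j m y' then w j m else 0) := by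
        rw [Finset.mul_sum, ← Finset.sum_add_distrib]
        refine Finset.sum_le_sum fun j _ => ?_
        rw [Finset.mul_sum, ← Finset.sum_add_distrib]
        exact Finset.sum_le_sum fun m _ => (e4 j m).2
      rw [e1, abs_le]
      have e8 : 2 * (Q : ℝ) * (∑ j : J', ∑ m,
              (if mu j m y ≠ 0 ∧ ∃ y', 2 ≤ mu j m y' then w j m else 0)) ≤ 2 * Q * κ :=
        mul_le_mul_of_nonneg_left e5 (by positivity)
      constructor <;> linarith
  -- codegrees
  have hcodjy : ∀ (j : J') (y : E'),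
      (∑ i, if (Sum.inl j : V) ∈ e i ∧ (Sum.inr y : V) ∈ e i then ww i else 0) ≤ δ := by
    intro j y
    have e2 : (∑ i, if (Sum.inl j : V) ∈ e i ∧ (Sum.inr y : V) ∈ e i then ww i else 0)
        = ∑ p : ι, (if G p.1 p.2 then (fun (j' : J') (m : Mt) =>
            if j = j' ∧ mu j' m y ≠ 0 then w j' m else 0) p.1 p.2 else 0) := by
      refine Finset.sum_congr rfl fun p _ => ?_
      by_cases h4 : j = p.1 ∧ mu p.1 p.2 y ≠ 0
      · rw [if_pos ⟨(hmem1 j p).2 h4.1, (hmem2 y p).2 h4.2⟩]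
        simp only [ww, if_pos h4]
      · rw [if_neg (fun h5 => h4 ⟨(hmem1 j p).1 h5.1, (hmem2 y p).1 h5.2⟩)]
        simp only [if_neg h4, ite_self]
    refine (le_of_eq (e2.trans (hsumι (fun (j' : J') (m : Mt) =>
            if j = j' ∧ mu j' m y ≠ 0 then w j' m else 0)))).trans ?_
    rw [Finset.sum_eq_single j]
    · calc (∑ m, if G j m then (if j = j ∧ mu j m y ≠ 0 then w j m else 0) else 0)
          ≤ ∑ m, if mu j m y ≠ 0 then w j m else 0 := by
            refine Finset.sum_le_sum fun m _ => ?_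
            have hwn := w0 j m
            by_cases h4 : G j m <;> by_cases h5 : mu j m y ≠ 0 <;> simp [h4, h5, hwn]
        _ ≤ κ := hfew j _ (hcastle _ (c1 j (hJB j.2) y (hEA y.2)))
        _ ≤ δ := hκδ'
    · intro j' _ hj'
      refine Finset.sum_eq_zero fun m _ => ?_
      simp [Ne.symm hj']
    · intro h4
      exact absurd (mem_univ _) h4
  have hcod : ∀ u v : V, u ≠ v → (∑ i, if u ∈ e i ∧ v ∈ e i then ww i else 0) ≤ δ := by
    intro u v huv
    rcases u with j | y <;> rcases v with j' | y'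
    · refine le_trans (le_of_eq ?_) hδ.le
      refine Finset.sum_eq_zero fun p _ => ?_
      rw [if_neg]
      rw [hmem1, hmem1]
      rintro ⟨h4, h5⟩
      exact huv (by rw [h4, h5])
    · exact hcodjy j y'
    · have := hcodjy j' y
      refine le_trans (le_of_eq ?_) this
      refine Finset.sum_congr rfl fun p _ => ?_
      by_cases h4 : (Sum.inr y : V) ∈ e p <;> by_cases h5 : (Sum.inl j' : V) ∈ e p <;>
        simp [h4, h5]
    · have e2 : (∑ i, if (Sum.inr y : V) ∈ e i ∧ (Sum.inr y' : V) ∈ e i then ww i else 0)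
          = ∑ p : ι, (if G p.1 p.2 then (fun (j' : J') (m : Mt) =>
              if mu j' m y ≠ 0 ∧ mu j' m y' ≠ 0 then w j' m else 0) p.1 p.2 else 0) := by
        refine Finset.sum_congr rfl fun p _ => ?_
        by_cases h4 : mu p.1 p.2 y ≠ 0 ∧ mu p.1 p.2 y' ≠ 0
        · rw [if_pos ⟨(hmem2 y p).2 h4.1, (hmem2 y' p).2 h4.2⟩]
          simp only [ww, if_pos h4]
        · rw [if_neg (fun h5 => h4 ⟨(hmem2 y p).1 h5.1, (hmem2 y' p).1 h5.2⟩)]
          simp only [if_neg h4, ite_self]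
      refine (le_of_eq (e2.trans (hsumι (fun (j' : J') (m : Mt) =>
              if mu j' m y ≠ 0 ∧ mu j' m y' ≠ 0 then w j' m else 0)))).trans ?_
      have hyy : (y : Elt n) ≠ y' := fun h4 => huv (by rw [Subtype.ext h4])
      calc (∑ j : J', ∑ m, if G j m then
              (if mu j m y ≠ 0 ∧ mu j m y' ≠ 0 then w j m else 0) else 0)
          ≤ ∑ j : J', ∑ m, if mu j m y ≠ 0 ∧ mu j m y' ≠ 0 then w j m else 0 := by
            refine Finset.sum_le_sum fun j _ => Finset.sum_le_sum fun m _ => ?_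
            have hwn := w0 j m
            by_cases h4 : G j m <;> by_cases h5 : mu j m y ≠ 0 ∧ mu j m y' ≠ 0 <;>
              simp [h4, h5, hwn]
        _ ≤ κ := hfew2 (fun j m => mu j m y ≠ 0 ∧ mu j m y' ≠ 0)
            (hcastle _ (c3 y (hEA y.2) y' (hEA y'.2) hyy))
        _ ≤ δ := hκδ'
  -- number of vertices
  have hc2 : Fintype.card V = (3 * Q - 1) * J'.card := by
    have h4 : Fintype.card V = J'.card + E'.card := by
      simp only [V, Fintype.card_sum, Fintype.card_coe]
    rw [h4, kc_sum E', hyp.pts, hyp.cls]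
    obtain ⟨q, rfl⟩ : ∃ q, Q = q + 1 := ⟨Q - 1, by omega⟩
    have h5 : 3 * (q + 1) - 1 = 3 * q + 2 := by omega
    rw [h5, Nat.add_sub_cancel]
    ring
  have hc3 : Fintype.card V ≤ 3 * n := by
    rw [hc2]
    have h4 : J'.card ≤ (Blocks n Q).card := card_le_card hJB
    have h5 := card_blocks n Q
    calc (3 * Q - 1) * J'.card ≤ (3 * Q) * (Blocks n Q).card :=
          Nat.mul_le_mul (by omega) h4
      _ = 3 * ((Blocks n Q).card * Q) := by ring
      _ ≤ 3 * n := by omega
  have hc4 : (Fintype.card V : ℝ) ≤ 3 * n := by exact_mod_cast hc3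
  -- the restricted matchings
  have hKM : ((n ^ (Q - 5) : ℕ) : ℝ) * (W / (n : ℝ) ^ (Q - 1)) * (Fintype.card V : ℝ) ^ 2 ≤ δ := by
    have h5 : (n : ℝ) ^ (Q - 1) = (n : ℝ) ^ (Q - 5) * (n : ℝ) ^ 4 := by
      rw [← pow_add]
      congr 1
      omega
    have h6 : (Fintype.card V : ℝ) ^ 2 ≤ (3 * n) ^ 2 := pow_le_pow_left₀ (Nat.cast_nonneg _) hc4 2
    have h7 : ((n ^ (Q - 5) : ℕ) : ℝ) * (W / (n : ℝ) ^ (Q - 1)) = W / (n : ℝ) ^ 4 := by
      rw [h5]
      push_cast
      field_simp
    rw [h7]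
    have h8 : 9 * W / δ ≤ n := by
      have h9 := Nat.le_ceil (9 * W / δ)
      have h10 : ⌈9 * W / δ⌉₊ ≤ n := by omega
      have h11 : ((⌈9 * W / δ⌉₊ : ℕ) : ℝ) ≤ (n : ℝ) := Nat.cast_le.2 h10
      linarith
    rw [div_le_iff₀ hδ] at h8
    have hn1R : (1 : ℝ) ≤ n := by exact_mod_cast hnpos
    have h12 : 9 * W ≤ δ * (n : ℝ) ^ 2 := by
      have h13 : (n : ℝ) ≤ (n : ℝ) ^ 2 := by nlinarith
      have h14 : (n : ℝ) * δ ≤ (n : ℝ) ^ 2 * δ := mul_le_mul_of_nonneg_right h13 hδ.le
      linarith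
    calc W / (n : ℝ) ^ 4 * (Fintype.card V : ℝ) ^ 2 ≤ W / (n : ℝ) ^ 4 * (3 * n) ^ 2 :=
          mul_le_mul_of_nonneg_left h6 (by positivity)
      _ = 9 * W / (n : ℝ) ^ 2 := by field_simp; ring
      _ ≤ δ := by
          rw [div_le_iff₀ (by positivity)]
          exact h12
  obtain ⟨Gd, hGd, hGood⟩ := hN V ι e ww (n ^ (Q - 5)) (W / (n : ℝ) ^ (Q - 1)) hww0 hwwM
    (by positivity) hcard hdeg hcod hKM
  refine ⟨Gd, by convert hGd, ?_⟩
  intro h hh
  obtain ⟨M, hM0, hM, hunc⟩ := hGood h hh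
  let cov : ℕ → Prop := fun j => ∃ p ∈ M, (p.1 : ℕ) = j
  let F : ℕ → ℕ → ZMod n := fun j =>
    if h : cov j then ext n Q U j (h.choose.2) else fun _ => 0
  have hFj : ∀ j, cov j → ∃ p ∈ M, (p.1 : ℕ) = j ∧ F j = ext n Q U j p.2 := by
    intro j h
    refine ⟨h.choose, h.choose_spec.1, h.choose_spec.2, ?_⟩
    simp only [F]
    rw [dif_pos h]
  refine ⟨J'.filter fun j => ¬ cov j, filter_subset _ _, ?_, ?_⟩
  · -- few blocks are not covered
    have hsub : (J'.filter fun j => ¬ cov j)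
        ⊆ (univ.filter fun v : V => ∀ i ∈ M, v ∉ e i).image
          (Sum.elim (fun j : J' => (j : ℕ)) fun _ => 0) := by
      intro j hj
      rw [mem_filter] at hj
      rw [mem_image]
      refine ⟨Sum.inl ⟨j, hj.1⟩, ?_, rfl⟩
      rw [mem_filter]
      refine ⟨mem_univ _, ?_⟩
      intro p hp hin
      rw [hmem1] at hin
      exact hj.2 ⟨p, hp, by rw [← hin]⟩
    have hc1 : (J'.filter fun j => ¬ cov j).card
        ≤ (univ.filter fun v : V => ∀ i ∈ M, v ∉ e i).card :=
      (card_le_card hsub).trans card_image_le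
    calc ((J'.filter fun j => ¬ cov j).card : ℝ)
        ≤ ((univ.filter fun v : V => ∀ i ∈ M, v ∉ e i).card : ℝ) := by exact_mod_cast hc1
      _ ≤ γ / 3 * (Fintype.card V : ℝ) := by convert hunc
      _ ≤ γ / 3 * (3 * n) := mul_le_mul_of_nonneg_left hc4 (by positivity)
      _ = γ * n := by ring
  · -- the filled blocks
    have hcov : ∀ j ∈ J' \ (J'.filter fun j => ¬ cov j), cov j := by
      intro j hj
      rw [mem_sdiff, mem_filter] at hj
      by_contra h4
      exact hj.2 ⟨hj.1, h4⟩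
    have hsubE : ∀ j, cov j → foot n Q j (F j) ⊆ E' := by
      intro j hj y hy
      obtain ⟨p, hp, hpj, hF1⟩ := hFj j hj
      rw [hF1, mem_foot] at hy
      subst hpj
      exact hsup p (hwwG p (hM0 p hp).1) y hy
    refine ⟨(J' \ (J'.filter fun j => ¬ cov j)).biUnion fun j => foot n Q j (F j), ?_,
      F, ⟨?_, ?_, rfl⟩, ?_⟩
    · intro y hy
      rw [mem_biUnion] at hy
      obtain ⟨j, hj, hy⟩ := hy
      exact hsubE j (hcov j hj) hy
    · intro j hj
      obtain ⟨p, hp, hpj, hF1⟩ := hFj j (hcov j hj)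
      rw [hF1]
      subst hpj
      have hGp := hwwG p (hM0 p hp).1
      exact isFill_ext (by omega) hEA (fun y hy => hsup p hGp y hy) hGp.2
    · intro i hi j hj hij
      rw [Finset.disjoint_left]
      intro y hy1 hy2
      have hyE : y ∈ E' := hsubE i (hcov i hi) hy1
      obtain ⟨p, hp, hpi, hF1⟩ := hFj i (hcov i hi)
      obtain ⟨q, hq, hqj, hF2⟩ := hFj j (hcov j hj)
      have hpq : p ≠ q := by
        intro h4
        apply hij
        rw [← hpi, ← hqj, h4]
      have hd := hM p hp q hq hpq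
      rw [hF1, mem_foot] at hy1
      rw [hF2, mem_foot] at hy2
      subst hpi
      subst hqj
      rw [Finset.disjoint_left] at hd
      exact hd ((hmem2 ⟨y, hyE⟩ p).2 hy1) ((hmem2 ⟨y, hyE⟩ q).2 hy2)
    · intro j hj
      have h4 : cov j := by
        by_contra h5
        exact hj (mem_filter.mpr ⟨j.2, h5⟩)
      obtain ⟨p, hp, hpj, hF1⟩ := hFj j h4
      refine ⟨p.2, hF1, ?_⟩
      have h6 : j = p.1 := Subtype.ext hpj.symm
      have h7 : ((j, p.2) : ι) = p := by rw [h6]
      have h8 := (hM0 p hp).2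
      rw [← h7] at h8
      exact h8

end Pool.Agent.DNA
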