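import Pool.Agent.Lib.MP_845d9b_co.Cnt.Core
import Pool.Agent.Lib.MP_845d9b_co.Cnt.Near
import Pool.Agent.Lib.MP_845d9b_co.Cnt.Asm

/-!
# At least `n ^ ((1/2 - ε) n)` solutions of the half problem (helper44)
-/

set_option autoImplicit false

namespace Pool.Agent.DNA

open Finset

/-- the number of solutions of the half problem -/
def StMany : Prop :=
  ∀ ε : ℝ, 0 < ε → ∃ N : ℕ, ∀ n : ℕ, N ≤ n → ∀ [NeZero n],
    (n : ℝ) ^ ((1 / 2 - ε) * (n : ℝ)) ≤ ((HS n).card : ℝ)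

theorem stMany (hSet : StSetup) (hNear : StNearC) : StMany := by
  intro ε hε
  obtain ⟨Q0, hQ0, hNear⟩ := hNear
  obtain ⟨Q, hQQ, hQ, hQε⟩ : ∃ Q : ℕ, Q0 ≤ Q ∧ 1000 ≤ Q ∧ 20 / ε ≤ (Q : ℝ) := by
    refine ⟨max (max Q0 1000) ⌈20 / ε⌉₊, ?_, ?_, ?_⟩
    · exact (le_max_left _ _).trans (le_max_left _ _)
    · exact (le_max_right _ _).trans (le_max_left _ _)
    · refine (Nat.le_ceil (20 / ε)).trans ?_
      exact_mod_cast le_max_right _ _
  have hQr : (1000 : ℝ) ≤ (Q : ℝ) := by exact_mod_cast hQ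
  have hQp : (0 : ℝ) < (Q : ℝ) := by linarith
  obtain ⟨μ1, hμ1, hNear⟩ := hNear Q hQQ
  set μ0 : ℝ := min μ1 (ε / (16 * Q)) with hμ0
  have hμ0p : 0 < μ0 := lt_min hμ1 (by positivity)
  obtain ⟨γ0, hγ0, N1, hSet⟩ := hSet Q hQ μ0 hμ0p
  set γ : ℝ := min γ0 (ε / (16 * Q)) with hγ
  have hγp : 0 < γ := lt_min hγ0 (by positivity)
  obtain ⟨N2, hNear⟩ := hNear γ hγp
  refine ⟨N1 + N2 + 1000 * Q ^ 2 + ⌈12 * Q / ε⌉₊ + ⌈(4 : ℝ) ^ (4 / ε)⌉₊, fun n hn _ => ?_⟩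
  have hn1 : N1 ≤ n := by omega
  have hn2 : N2 ≤ n := by omega
  have hn3 : 1000 * Q ^ 2 ≤ n := by omega
  have hn4 : 12 * Q / ε ≤ (n : ℝ) := by
    refine (Nat.le_ceil (12 * Q / ε)).trans ?_
    have : ⌈12 * Q / ε⌉₊ ≤ n := by omega
    exact_mod_cast this
  have hn5 : (4 : ℝ) ^ (4 / ε) ≤ (n : ℝ) := by
    refine (Nat.le_ceil ((4 : ℝ) ^ (4 / ε))).trans ?_
    have : ⌈(4 : ℝ) ^ (4 / ε)⌉₊ ≤ n := by omega
    exact_mod_cast this
  obtain ⟨hQT, _, hJ1, hnQ⟩ := Asm.sizes hQ hn3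
  have hnpos : 0 < n := by omega
  have hnr : (0 : ℝ) < n := by exact_mod_cast hnpos
  have hn1r : (1 : ℝ) ≤ n := by exact_mod_cast hnpos
  obtain ⟨U, J', E', hyp, hext⟩ := hSet n hn1
  have hyp1 : NearHyp n Q U μ1 J' E' := by
    refine ⟨hyp.fix, hyp.reg, hyp.sub, hyp.many.trans ?_, hyp.sub', hyp.pts, hyp.cls⟩
    exact mul_le_mul_of_nonneg_right (min_le_left _ _) hnr.le
  obtain ⟨Gd, hGd, hGood⟩ := hNear n hn2 U J' E' hyp1
  set b : ℕ := ⌊γ * n⌋₊ with hb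
  have hbr : (b : ℝ) ≤ γ * n := Nat.floor_le (by positivity)
  have hcore := count_core (b := b) J' Gd hGd (by
    intro h hh
    obtain ⟨J'', hJ'', hJc, S, hS, F, hF, hFh⟩ := hGood h hh
    obtain ⟨U', hU', hUF⟩ := hext J'' hJ'' (hJc.trans
      (mul_le_mul_of_nonneg_right (min_le_left _ _) hnr.le)) S hS F hF
    refine ⟨J'', hJ'', Nat.le_floor hJc, vec n U', mem_HS.mpr ⟨U', hU', rfl⟩, ?_⟩
    intro j hj
    obtain ⟨m, hm, hm0⟩ := hFh j hj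
    have hjJ : (j : ℕ) ∈ J' \ J'' := mem_sdiff.mpr ⟨j.2, hj⟩
    have h1 := tup_vec (n := n) (Q := Q) (by omega) (hyp.sub j.2) U U' m (by
      intro k hk
      rw [hUF j hjJ k hk, hm])
    rw [h1]
    exact hm0)
  -- the number of blocks
  have hJ' : (n : ℝ) / (2 * Q) - 3 - ε / (16 * Q) * n ≤ (J'.card : ℝ) := by
    have h1 : ((Blocks n Q).card : ℝ) ≤ (J'.card : ℝ) + μ0 * n := by
      have h2 : (Blocks n Q).card ≤ J'.card + (Blocks n Q \ J').card := by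
        rw [← card_sdiff_add_card_eq_card hyp.sub]
        omega
      have h3 : ((Blocks n Q).card : ℝ) ≤ (J'.card : ℝ) + ((Blocks n Q \ J').card : ℝ) := by
        exact_mod_cast h2
      linarith [hyp.many]
    have h4 : (n : ℝ) / (2 * Q) - 3 ≤ ((Blocks n Q).card : ℝ) := by
      have h5 : (Blocks n Q).card = J1 n Q - 1 := by
        unfold Blocks; rw [Nat.card_Ico]
      have h6 : n ≤ 2 * ((Blocks n Q).card + 2) * Q + 2 := by
        rw [h5]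
        refine hJ1.trans ?_
        have : J1 n Q + 1 ≤ J1 n Q - 1 + 2 := by omega
        exact Nat.add_le_add_right (Nat.mul_le_mul_right _ (Nat.mul_le_mul_left _ this)) _
      have h7 : (n : ℝ) ≤ 2 * (((Blocks n Q).card : ℝ) + 2) * Q + 2 := by exact_mod_cast h6
      rw [sub_le_iff_le_add, div_le_iff₀ (by positivity)]
      nlinarith
    have h8 : μ0 * n ≤ ε / (16 * Q) * n := mul_le_mul_of_nonneg_right (min_le_right _ _) hnr.le
    linarith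
  have hbb : (b : ℝ) ≤ ε / (16 * Q) * n :=
    hbr.trans (mul_le_mul_of_nonneg_right (min_le_right _ _) hnr.le)
  have hsub : (n : ℝ) / (2 * Q) - 3 - ε / (8 * Q) * n ≤ ((J'.card - b : ℕ) : ℝ) := by
    have h1 : (J'.card : ℝ) - (b : ℝ) ≤ ((J'.card - b : ℕ) : ℝ) := by
      have : J'.card ≤ (J'.card - b) + b := by omega
      have h2 : (J'.card : ℝ) ≤ ((J'.card - b : ℕ) : ℝ) + (b : ℝ) := by exact_mod_cast this
      linarith
    have h3 : ε / (8 * Q) * n = ε / (16 * Q) * n + ε / (16 * Q) * n := by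
      field_simp; ring
    linarith
  -- the exponent
  have hexp : (1 / 2 - ε / 4) * (n : ℝ) - 3 * Q ≤ (((Q - 5) * (J'.card - b) : ℕ) : ℝ) := by
    have h1 : ((Q - 5 : ℕ) : ℝ) = (Q : ℝ) - 5 := by
      rw [Nat.cast_sub (by omega)]; norm_num
    rw [Nat.cast_mul, h1]
    have h2 : ((Q : ℝ) - 5) * ((n : ℝ) / (2 * Q) - 3 - ε / (8 * Q) * n) ≤
        ((Q : ℝ) - 5) * ((J'.card - b : ℕ) : ℝ) := mul_le_mul_of_nonneg_left hsub (by linarith)
    refine le_trans ?_ h2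
    have h3 : ((Q : ℝ) - 5) * ((n : ℝ) / (2 * Q) - 3 - ε / (8 * Q) * n) =
        (n : ℝ) / 2 - 5 * (n / (2 * Q)) - 3 * Q + 15 - ε / 8 * n + 5 * (ε / (8 * Q) * n) := by
      field_simp
      ring
    rw [h3]
    have h4 : 5 * ((n : ℝ) / (2 * Q)) ≤ ε / 8 * n := by
      have h5 : 20 ≤ Q * ε := by
        rwa [div_le_iff₀ hε] at hQε
      have h6 : 5 * ((n : ℝ) / (2 * Q)) = (5 * n) / (2 * Q) := by ring
      rw [h6, div_le_iff₀ (by positivity)]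
      nlinarith
    have h7 : 0 ≤ 5 * (ε / (8 * Q) * n) := by positivity
    linarith
  -- the power of two
  have htwo : (2 : ℝ) ^ (J'.card + 1) ≤ (n : ℝ) ^ (ε / 4 * (n : ℝ)) := by
    have h1 : J'.card + 1 ≤ 2 * n := by
      have h2 : J'.card ≤ (Blocks n Q).card := card_le_card hyp.sub
      have h3 := NearAux.card_blocks n Q
      have h4 : (Blocks n Q).card ≤ (Blocks n Q).card * Q := Nat.le_mul_of_pos_right _ (by omega)
      omega
    have h5 : (4 : ℝ) ≤ (n : ℝ) ^ (ε / 4) := by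
      have h6 : ((4 : ℝ) ^ (4 / ε)) ^ (ε / 4) ≤ (n : ℝ) ^ (ε / 4) :=
        Real.rpow_le_rpow (by positivity) hn5 (by positivity)
      rwa [← Real.rpow_mul (by norm_num), show 4 / ε * (ε / 4) = 1 by field_simp,
        Real.rpow_one] at h6
    calc (2 : ℝ) ^ (J'.card + 1) ≤ 2 ^ (2 * n) := pow_le_pow_right₀ (by norm_num) h1
      _ = 4 ^ n := by rw [pow_mul]; norm_num
      _ ≤ ((n : ℝ) ^ (ε / 4)) ^ n := pow_le_pow_left₀ (by norm_num) h5 n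
      _ = (n : ℝ) ^ (ε / 4 * (n : ℝ)) := by
          rw [← Real.rpow_natCast ((n : ℝ) ^ (ε / 4)) n, ← Real.rpow_mul hnr.le]
  have hHS : (0 : ℝ) ≤ ((HS n).card : ℝ) := Nat.cast_nonneg _
  have hfin : (n : ℝ) ^ ((1 / 2 - ε) * (n : ℝ)) * (n : ℝ) ^ (ε / 4 * (n : ℝ)) ≤
      (n : ℝ) ^ (ε / 4 * (n : ℝ)) * ((HS n).card : ℝ) := by
    calc (n : ℝ) ^ ((1 / 2 - ε) * (n : ℝ)) * (n : ℝ) ^ (ε / 4 * (n : ℝ))
        = (n : ℝ) ^ ((1 / 2 - ε) * (n : ℝ) + ε / 4 * (n : ℝ)) := (Real.rpow_add hnr _ _).symm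
      _ ≤ (n : ℝ) ^ ((((Q - 5) * (J'.card - b) : ℕ) : ℝ)) := by
          refine Real.rpow_le_rpow_of_exponent_le hn1r (le_trans ?_ hexp)
          have h1 : 12 * (Q : ℝ) ≤ n * ε := by rwa [div_le_iff₀ hε] at hn4
          linarith
      _ = ((n ^ (Q - 5) : ℕ) : ℝ) ^ (J'.card - b) := by
          rw [Real.rpow_natCast, pow_mul]
          push_cast
          rfl
      _ ≤ 2 ^ (J'.card + 1) * ((HS n).card : ℝ) := hcore
      _ ≤ (n : ℝ) ^ (ε / 4 * (n : ℝ)) * ((HS n).card : ℝ) :=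
          mul_le_mul_of_nonneg_right htwo hHS
  rw [mul_comm] at hfin
  exact le_of_mul_le_mul_left hfin (Real.rpow_pos_of_pos hnr _)

end Pool.Agent.DNA
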